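import Pool.Agent.Helper13.C3.Sum

/-! The two averaging inequalities with an error term for bad quadruples. -/

set_option autoImplicit false
open Finset
open scoped Classical

namespace Pool.Agent.Helper13.C3

noncomputable def ind (p : Prop) : ℝ := if p then 1 else 0

theorem ind_nonneg (p : Prop) : 0 ≤ ind p := by
  unfold ind; split_ifs <;> norm_num

theorem ind_true {p : Prop} (h : p) : ind p = 1 := if_pos h

theorem flag5 {V : Type} [Fintype V] (hn : 0 < Fintype.card V) (rel : V → V → ℕ)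
    (hl : ∀ x y, rel x y < 3) (q3 : ℕ → ℕ → ℕ → ℕ) (q1 : ℕ → ℕ → ℕ) (O : ℝ) (t : ℕ → ℝ)
    (hq3 : ∀ c < 27, PSD 27 fun i j => (q3 c i j : ℝ) - (O + t c))
    (hq1 : PSD 27 fun i j => (q1 i j : ℝ) - O) (C W : ℝ) (hW : 0 ≤ W)
    (bad : V → V → V → V → Prop)
    (hgood : ∀ x : Fin 5 → V, ¬ bad (x 0) (x 1) (x 2) (x 3) → ¬ bad (x 0) (x 1) (x 2) (x 4) →
      ¬ bad (x 0) (x 1) (x 3) (x 4) → ¬ bad (x 0) (x 2) (x 3) (x 4) →
      ¬ bad (x 1) (x 2) (x 3) (x 4) → (Leaf5 rel q3 q1 x : ℝ) ≤ C)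
    (hall : ∀ x : Fin 5 → V, (Leaf5 rel q3 q1 x : ℝ) ≤ C + W) :
    10 * (O + (∑ a, ∑ b, ∑ c, t (c3 rel a b c)) / (Fintype.card V : ℝ) ^ 3) + 15 * O
      ≤ C + 5 * W * (∑ a, ∑ b, ∑ c, ∑ d, ind (bad a b c d)) / (Fintype.card V : ℝ) ^ 4 := by
  obtain ⟨w, hwd⟩ : ∃ w : V → ℝ, w = fun _ => 1 / (Fintype.card V : ℝ) := ⟨_, rfl⟩
  have hNp : (0 : ℝ) < (Fintype.card V : ℝ) := by exact_mod_cast hn
  have hw : ∀ v, 0 ≤ w v := fun v => by rw [hwd]; positivity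
  have h1 : ∑ v, w v = 1 := by
    rw [hwd, sum_const, card_univ, nsmul_eq_mul]
    field_simp
  have L3 := lower3 rel hl w hw h1 q3 O t hq3
  have L1 := lower1 rel hl w hw h1 q1 O hq1
  have f3 : ∀ i0 i1 i2 i3 i4 : Fin 5, Function.Bijective ![i0, i1, i2, i3, i4] →
      ∑ x : Fin 5 → V, (∏ i, w (x i)) * (F3 rel q3 (x i0) (x i1) (x i2) (x i3) (x i4) : ℝ)
      = ∑ x : Fin 5 → V, (∏ i, w (x i)) * (F3 rel q3 (x 0) (x 1) (x 2) (x 3) (x 4) : ℝ) :=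
    fun i0 i1 i2 i3 i4 hg =>
      psum5 w (fun a b c d e => (F3 rel q3 a b c d e : ℝ)) ![i0, i1, i2, i3, i4] hg
  have f1 : ∀ i0 i1 i2 i3 i4 : Fin 5, Function.Bijective ![i0, i1, i2, i3, i4] →
      ∑ x : Fin 5 → V, (∏ i, w (x i)) * (F1 rel q1 (x i0) (x i1) (x i2) (x i3) (x i4) : ℝ)
      = ∑ x : Fin 5 → V, (∏ i, w (x i)) * (F1 rel q1 (x 0) (x 1) (x 2) (x 3) (x 4) : ℝ) :=
    fun i0 i1 i2 i3 i4 hg =>
      psum5 w (fun a b c d e => (F1 rel q1 a b c d e : ℝ)) ![i0, i1, i2, i3, i4] hg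
  have fb : ∀ i0 i1 i2 i3 i4 : Fin 5, Function.Bijective ![i0, i1, i2, i3, i4] →
      ∑ x : Fin 5 → V, (∏ i, w (x i)) * ind (bad (x i0) (x i1) (x i2) (x i3))
      = ∑ x : Fin 5 → V, (∏ i, w (x i)) * ind (bad (x 0) (x 1) (x 2) (x 3)) :=
    fun i0 i1 i2 i3 i4 hg =>
      psum5 w (fun a b c d _ => ind (bad a b c d)) ![i0, i1, i2, i3, i4] hg
  have hC : ∑ x : Fin 5 → V, (∏ i, w (x i)) * C = C := by
    rw [conv5 w (fun _ _ _ _ _ => C)]
    simp only [mul_assoc, ← mul_sum, sum1 w h1]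
  have hB : ∑ x : Fin 5 → V, (∏ i, w (x i)) * ind (bad (x 0) (x 1) (x 2) (x 3))
      = (∑ a, ∑ b, ∑ c, ∑ d, ind (bad a b c d)) / (Fintype.card V : ℝ) ^ 4 := by
    rw [conv5 w (fun a b c d _ => ind (bad a b c d))]
    simp only [sum_div]
    refine sum_congr rfl fun a _ => sum_congr rfl fun b _ => sum_congr rfl fun c _ =>
      sum_congr rfl fun d _ => ?_
    have : ∀ e : V, w a * w b * w c * w d * w e * ind (bad a b c d)
        = w e * (w a * w b * w c * w d * ind (bad a b c d)) := fun e => by ring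
    simp only [this, sum1 w h1]
    rw [hwd]
    field_simp
  have key : ∑ x : Fin 5 → V, (∏ i, w (x i)) * (Leaf5 rel q3 q1 x : ℝ)
      ≤ C + 5 * W * (∑ a, ∑ b, ∑ c, ∑ d, ind (bad a b c d)) / (Fintype.card V : ℝ) ^ 4 := by
    have h2 : ∀ x : Fin 5 → V, (∏ i, w (x i)) * (Leaf5 rel q3 q1 x : ℝ) ≤
        (∏ i, w (x i)) * C + W * ((∏ i, w (x i)) * ind (bad (x 0) (x 1) (x 2) (x 3))
          + (∏ i, w (x i)) * ind (bad (x 0) (x 1) (x 2) (x 4))
          + (∏ i, w (x i)) * ind (bad (x 0) (x 1) (x 3) (x 4))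
          + (∏ i, w (x i)) * ind (bad (x 0) (x 2) (x 3) (x 4))
          + (∏ i, w (x i)) * ind (bad (x 1) (x 2) (x 3) (x 4))) := by
      intro x
      have hp : 0 ≤ (∏ i, w (x i)) := prod_nonneg fun i _ => hw _
      have h3 : (Leaf5 rel q3 q1 x : ℝ) ≤ C + W * (ind (bad (x 0) (x 1) (x 2) (x 3))
          + ind (bad (x 0) (x 1) (x 2) (x 4)) + ind (bad (x 0) (x 1) (x 3) (x 4))
          + ind (bad (x 0) (x 2) (x 3) (x 4)) + ind (bad (x 1) (x 2) (x 3) (x 4))) := by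
        have n1 := ind_nonneg (bad (x 0) (x 1) (x 2) (x 3))
        have n2 := ind_nonneg (bad (x 0) (x 1) (x 2) (x 4))
        have n3 := ind_nonneg (bad (x 0) (x 1) (x 3) (x 4))
        have n4 := ind_nonneg (bad (x 0) (x 2) (x 3) (x 4))
        have n5 := ind_nonneg (bad (x 1) (x 2) (x 3) (x 4))
        have hx := hall x
        by_cases b1 : bad (x 0) (x 1) (x 2) (x 3)
        · have e := ind_true b1
          nlinarith
        by_cases b2 : bad (x 0) (x 1) (x 2) (x 4)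
        · have e := ind_true b2
          nlinarith
        by_cases b3 : bad (x 0) (x 1) (x 3) (x 4)
        · have e := ind_true b3
          nlinarith
        by_cases b4 : bad (x 0) (x 2) (x 3) (x 4)
        · have e := ind_true b4
          nlinarith
        by_cases b5 : bad (x 1) (x 2) (x 3) (x 4)
        · have e := ind_true b5
          nlinarith
        have := hgood x b1 b2 b3 b4 b5
        have h0 : 0 ≤ W * (ind (bad (x 0) (x 1) (x 2) (x 3))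
          + ind (bad (x 0) (x 1) (x 2) (x 4)) + ind (bad (x 0) (x 1) (x 3) (x 4))
          + ind (bad (x 0) (x 2) (x 3) (x 4)) + ind (bad (x 1) (x 2) (x 3) (x 4))) := by
          positivity
        linarith
      have h4 := mul_le_mul_of_nonneg_left h3 hp
      refine le_of_le_of_eq h4 ?_
      ring
    refine le_trans (sum_le_sum fun x _ => h2 x) ?_
    rw [sum_add_distrib, hC, ← mul_sum]
    simp only [sum_add_distrib]
    rw [fb 0 1 2 4 3 (by decide), fb 0 1 3 4 2 (by decide), fb 0 2 3 4 1 (by decide),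
      fb 1 2 3 4 0 (by decide), hB]
    apply le_of_eq
    ring
  have e : ∑ x : Fin 5 → V, (∏ i, w (x i)) * (Leaf5 rel q3 q1 x : ℝ)
      = 10 * (∑ x : Fin 5 → V, (∏ i, w (x i)) * (F3 rel q3 (x 0) (x 1) (x 2) (x 3) (x 4) : ℝ))
      + 15 * (∑ x : Fin 5 → V, (∏ i, w (x i)) * (F1 rel q1 (x 0) (x 1) (x 2) (x 3) (x 4) : ℝ)) := by
    simp only [Leaf5, Nat.cast_add, mul_add, sum_add_distrib]
    rw [f3 0 1 3 2 4 (by decide), f3 0 1 4 2 3 (by decide), f3 0 2 3 1 4 (by decide),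
      f3 0 2 4 1 3 (by decide), f3 0 3 4 1 2 (by decide), f3 1 2 3 0 4 (by decide),
      f3 1 2 4 0 3 (by decide), f3 1 3 4 0 2 (by decide), f3 2 3 4 0 1 (by decide),
      f1 0 1 3 2 4 (by decide), f1 0 1 4 2 3 (by decide),
      f1 1 0 2 3 4 (by decide), f1 1 0 3 2 4 (by decide), f1 1 0 4 2 3 (by decide),
      f1 2 0 1 3 4 (by decide), f1 2 0 3 1 4 (by decide), f1 2 0 4 1 3 (by decide),
      f1 3 0 1 2 4 (by decide), f1 3 0 2 1 4 (by decide), f1 3 0 4 1 2 (by decide),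
      f1 4 0 1 2 3 (by decide), f1 4 0 2 1 3 (by decide), f1 4 0 3 1 2 (by decide)]
    ring
  rw [e] at key
  have h5 : ∑ a, ∑ b, ∑ c, w a * w b * w c * t (c3 rel a b c)
      = (∑ a, ∑ b, ∑ c, t (c3 rel a b c)) / (Fintype.card V : ℝ) ^ 3 := by
    rw [hwd]
    simp only [sum_div]
    refine sum_congr rfl fun a _ => sum_congr rfl fun b _ => sum_congr rfl fun c _ => ?_
    field_simp
  rw [h5] at L3
  linarith

theorem flag4 {V : Type} [Fintype V] (hn : 0 < Fintype.card V) (rel : V → V → ℕ)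
    (hl : ∀ x y, rel x y < 3) (q2 : ℕ → ℕ → ℕ → ℕ) (q0 : ℕ → ℕ → ℕ) (e : ℕ → ℕ) (O : ℝ)
    (hq2 : ∀ k < 3, PSD 9 fun i j => (q2 k i j : ℝ) - O)
    (hq0 : PSD 3 fun i j => (q0 i j : ℝ) - O) (C W : ℝ) (hW : 0 ≤ W)
    (bad : V → V → V → V → Prop)
    (hgood : ∀ x : Fin 4 → V, ¬ bad (x 0) (x 1) (x 2) (x 3) → (Leaf4 rel q2 q0 e x : ℝ) ≤ C)
    (hall : ∀ x : Fin 4 → V, (Leaf4 rel q2 q0 e x : ℝ) ≤ C + W) :
    9 * O + 4 * ((∑ a, ∑ b, ∑ c, (e (c3 rel a b c) : ℝ)) / (Fintype.card V : ℝ) ^ 3)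
      ≤ C + W * (∑ a, ∑ b, ∑ c, ∑ d, ind (bad a b c d)) / (Fintype.card V : ℝ) ^ 4 := by
  obtain ⟨w, hwd⟩ : ∃ w : V → ℝ, w = fun _ => 1 / (Fintype.card V : ℝ) := ⟨_, rfl⟩
  have hNp : (0 : ℝ) < (Fintype.card V : ℝ) := by exact_mod_cast hn
  have hw : ∀ v, 0 ≤ w v := fun v => by rw [hwd]; positivity
  have h1 : ∑ v, w v = 1 := by
    rw [hwd, sum_const, card_univ, nsmul_eq_mul]
    field_simp
  have L2 := lower2 rel hl w hw h1 q2 O hq2
  have L0 := lower0 rel hl w h1 q0 O hq0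
  have LE := tripE rel w h1 e
  have f2 : ∀ i0 i1 i2 i3 : Fin 4, Function.Bijective ![i0, i1, i2, i3] →
      ∑ x : Fin 4 → V, (∏ i, w (x i)) * (F2 rel q2 (x i0) (x i1) (x i2) (x i3) : ℝ)
      = ∑ x : Fin 4 → V, (∏ i, w (x i)) * (F2 rel q2 (x 0) (x 1) (x 2) (x 3) : ℝ) :=
    fun i0 i1 i2 i3 hg =>
      psum4 w (fun a b c d => (F2 rel q2 a b c d : ℝ)) ![i0, i1, i2, i3] hg
  have f0 : ∀ i0 i1 i2 i3 : Fin 4, Function.Bijective ![i0, i1, i2, i3] →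
      ∑ x : Fin 4 → V, (∏ i, w (x i)) * (F0 rel q0 (x i0) (x i1) (x i2) (x i3) : ℝ)
      = ∑ x : Fin 4 → V, (∏ i, w (x i)) * (F0 rel q0 (x 0) (x 1) (x 2) (x 3) : ℝ) :=
    fun i0 i1 i2 i3 hg =>
      psum4 w (fun a b c d => (F0 rel q0 a b c d : ℝ)) ![i0, i1, i2, i3] hg
  have fe : ∀ i0 i1 i2 i3 : Fin 4, Function.Bijective ![i0, i1, i2, i3] →
      ∑ x : Fin 4 → V, (∏ i, w (x i)) * (FE rel e (x i0) (x i1) (x i2) : ℝ)
      = ∑ x : Fin 4 → V, (∏ i, w (x i)) * (FE rel e (x 0) (x 1) (x 2) : ℝ) :=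
    fun i0 i1 i2 i3 hg =>
      psum4 w (fun a b c _ => (FE rel e a b c : ℝ)) ![i0, i1, i2, i3] hg
  have hC : ∑ x : Fin 4 → V, (∏ i, w (x i)) * C = C := by
    rw [conv4 w (fun _ _ _ _ => C)]
    simp only [mul_assoc, ← mul_sum, sum1 w h1]
  have hB : ∑ x : Fin 4 → V, (∏ i, w (x i)) * ind (bad (x 0) (x 1) (x 2) (x 3))
      = (∑ a, ∑ b, ∑ c, ∑ d, ind (bad a b c d)) / (Fintype.card V : ℝ) ^ 4 := by
    rw [conv4 w (fun a b c d => ind (bad a b c d))]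
    simp only [sum_div]
    refine sum_congr rfl fun a _ => sum_congr rfl fun b _ => sum_congr rfl fun c _ =>
      sum_congr rfl fun d _ => ?_
    rw [hwd]
    field_simp
  have key : ∑ x : Fin 4 → V, (∏ i, w (x i)) * (Leaf4 rel q2 q0 e x : ℝ)
      ≤ C + W * (∑ a, ∑ b, ∑ c, ∑ d, ind (bad a b c d)) / (Fintype.card V : ℝ) ^ 4 := by
    have h2 : ∀ x : Fin 4 → V, (∏ i, w (x i)) * (Leaf4 rel q2 q0 e x : ℝ) ≤
        (∏ i, w (x i)) * C + W * ((∏ i, w (x i)) * ind (bad (x 0) (x 1) (x 2) (x 3))) := by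
      intro x
      have hp : 0 ≤ (∏ i, w (x i)) := prod_nonneg fun i _ => hw _
      have h3 : (Leaf4 rel q2 q0 e x : ℝ) ≤ C + W * ind (bad (x 0) (x 1) (x 2) (x 3)) := by
        by_cases b1 : bad (x 0) (x 1) (x 2) (x 3)
        · rw [ind_true b1, mul_one]
          exact hall x
        · have := hgood x b1
          have h0 : 0 ≤ W * ind (bad (x 0) (x 1) (x 2) (x 3)) :=
            mul_nonneg hW (ind_nonneg _)
          linarith
      have h4 := mul_le_mul_of_nonneg_left h3 hp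
      refine le_of_le_of_eq h4 ?_
      ring
    refine le_trans (sum_le_sum fun x _ => h2 x) ?_
    rw [sum_add_distrib, hC, ← mul_sum, hB]
    apply le_of_eq
    ring
  have e' : ∑ x : Fin 4 → V, (∏ i, w (x i)) * (Leaf4 rel q2 q0 e x : ℝ)
      = 6 * (∑ x : Fin 4 → V, (∏ i, w (x i)) * (F2 rel q2 (x 0) (x 1) (x 2) (x 3) : ℝ))
      + (3 * (∑ x : Fin 4 → V, (∏ i, w (x i)) * (F0 rel q0 (x 0) (x 1) (x 2) (x 3) : ℝ))
      + 4 * (∑ x : Fin 4 → V, (∏ i, w (x i)) * (FE rel e (x 0) (x 1) (x 2) : ℝ))) := by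
    simp only [Leaf4, Nat.cast_add, mul_add, sum_add_distrib]
    rw [f2 0 2 1 3 (by decide), f2 0 3 1 2 (by decide), f2 1 2 0 3 (by decide),
      f2 1 3 0 2 (by decide), f2 2 3 0 1 (by decide), f0 0 2 1 3 (by decide),
      f0 0 3 1 2 (by decide), fe 0 1 3 2 (by decide), fe 0 2 3 1 (by decide),
      fe 1 2 3 0 (by decide)]
    ring
  rw [e', LE] at key
  have h5 : ∑ a, ∑ b, ∑ c, w a * w b * w c * (e (c3 rel a b c) : ℝ)
      = (∑ a, ∑ b, ∑ c, (e (c3 rel a b c) : ℝ)) / (Fintype.card V : ℝ) ^ 3 := by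
    rw [hwd]
    simp only [sum_div]
    refine sum_congr rfl fun a _ => sum_congr rfl fun b _ => sum_congr rfl fun c _ => ?_
    field_simp
  rw [h5] at key
  linarith

end Pool.Agent.Helper13.C3
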