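import Pool.Agent.Helper13.C3.Flag

/-! Kernel-reducible checkers for the certificates with four and five vertices. -/

set_option autoImplicit false
set_option maxRecDepth 100000
open Finset
open scoped Classical

namespace Pool.Agent.Helper13.C3

/-- permutation of attachment codes to the canonical labelling of a triple -/
def pa (c i : ℕ) : ℕ := Nat.land (Nat.shiftRight 0x1ace2f6ad2728c1ee6b16a4a0e62906208359c5ed5a4e5183dcd62d4941cc520c4106b38bdab49ca307b9ac5a928398a418820d671183d0735ed57358520e9392d491041ace2f6ad2728c1ee6b16a4a0e62906208359c5ed5a4e5183dcd62d4941cc520c4106b388c1e839af6ab9ac290749c96a48820d671183d0735ed57358520e9392d491041ace2f6ad2728c1ee6b16a4a0e6290620835146607c3cd7716cd25583a2c535064906af4cda78aca2e5c1aa7b128288e409860d5e99b4f15945cb8354f6250511c8130c1abd22e5a0a2cda706a8e40e2b27b12618359c5ed5a4e5183dcd62d4941cc520c4106b38bdab49ca307b9ac5a928398a418820d5e9172d05166d3835472071593d8930c1ace2307a0e6bdaae6b0a41d2725a92208359c5ed5a4e5183dcd62d4941cc520c4106a28cc0f879aee2d9a4ab07458a6a0c920d451981f0f35dc5b349560e8b14d419241abd3369e2b28b9706a9ec4a0a2390261835145dc5a2c5981ecd24d41c3cd560e4906a28cc0f879aee2d9a4ab07458a6a0c920d5e99b4f15945cb8354f6250511c8130c1abd22e5a0a2cda706a8e40e2b27b12618357a45cb41459b4e0d51c81c564f624c306b38bdab49ca307b9ac5a928398a418820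
  (Nat.mul 5 (Nat.add (Nat.mul 27 c) i))) 31

/-- the multiset of the colours of a triple code, a number less than 10 -/
def tyN (c : ℕ) : ℕ := Nat.land (Nat.shiftRight 0x985874542874763431542431210 (Nat.mul 4 c)) 15

def eN (B c : ℕ) : ℕ := Nat.land (Nat.shiftRight B c) 1

/-- number of triples of four vertices whose code is in `B` -/
def fourN (B d01 d02 d03 d12 d13 d23 : ℕ) : ℕ :=
  Nat.add (eN B (cd d01 d02 d12)) (Nat.add (eN B (cd d01 d03 d13))
    (Nat.add (eN B (cd d02 d03 d23)) (eN B (cd d12 d13 d23))))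

/-- the edge table of a rule `M` (a set of multisets of colours) -/
def bt (M : ℕ) : ℕ := nsum 27 fun c => Nat.mul (Nat.pow 2 c) (eN M (tyN c))

def A3 (f : ℕ → Bool) : Bool := and (f 0) (and (f 1) (f 2))

theorem A3_true {f : ℕ → Bool} (h : A3 f = true) {d : ℕ} (hd : d < 3) : f d = true := by
  unfold A3 at h
  simp only [Bool.and_eq_true] at h
  interval_cases d
  exacts [h.1, h.2.1, h.2.2]

theorem eN_le (B c : ℕ) : eN B c ≤ 1 := Nat.and_le_right

/-! ### positive semidefinite tables -/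

def ddS (r O : ℕ) (t l : ℕ → ℕ → ℕ) (β σ : ℕ) : Bool :=
  and (Nat.ble 1 σ) (ddC r (Nat.mul σ O) (fun i j => Nat.mul σ (t i j)) l β)

theorem ddS_psd {r O : ℕ} {t l : ℕ → ℕ → ℕ} {β σ : ℕ} (hs : ∀ a < r, ∀ b < r, t a b = t b a)
    (h : ddS r O t l β σ = true) : PSD r fun a b => (t a b : ℝ) - O := by
  unfold ddS at h
  rw [Bool.and_eq_true] at h
  have hσ : (1 : ℝ) ≤ σ := by exact_mod_cast Nat.le_of_ble_eq_true h.1
  have h1 := ddC_psd (fun a ha b hb => by rw [hs a ha b hb]) h.2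
  intro u
  have h2 := h1 u
  simp only [Nat.mul_eq] at h2
  have e : ∑ i ∈ range r, ∑ j ∈ range r, u i * u j * (((σ * t i j : ℕ) : ℝ) - ((σ * O : ℕ) : ℝ))
      = σ * ∑ i ∈ range r, ∑ j ∈ range r, u i * u j * ((t i j : ℝ) - O) := by
    rw [mul_sum]
    refine sum_congr rfl fun i _ => ?_
    rw [mul_sum]
    refine sum_congr rfl fun j _ => ?_
    push_cast
    ring
  rw [e] at h2
  exact nonneg_of_mul_nonneg_right h2 (by linarith)

def psdD (m O : ℕ) (t l : ℕ → ℕ → ℕ) (β σ : ℕ) : Bool := and (symC m t) (ddS m O t l β σ)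

theorem psdD_psd {m O : ℕ} {t l : ℕ → ℕ → ℕ} {β σ : ℕ} (h : psdD m O t l β σ = true) :
    PSD m fun i j => (t i j : ℝ) - O := by
  unfold psdD at h
  rw [Bool.and_eq_true] at h
  exact ddS_psd (fun a ha b hb => symC_eq h.1 ha hb) h.2

def psdR (m r O : ℕ) (t : ℕ → ℕ → ℕ) (f : ℕ → ℕ) (c : ℕ) (bm : ℕ → ℕ → ℕ) (γ : ℕ)
    (l : ℕ → ℕ → ℕ) (β σ : ℕ) : Bool :=
  and (symC m t) (and (and (Nat.ble 1 c) (nall r fun a => Nat.ble (Nat.succ (f a)) m))
    (and (rowC m r O t f c bm γ) (ddS r O (fun a b => t (f a) (f b)) l β σ)))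

theorem psdR_psd {m r O : ℕ} {t : ℕ → ℕ → ℕ} {f : ℕ → ℕ} {c : ℕ} {bm : ℕ → ℕ → ℕ} {γ : ℕ}
    {l : ℕ → ℕ → ℕ} {β σ : ℕ} (h : psdR m r O t f c bm γ l β σ = true) :
    PSD m fun i j => (t i j : ℝ) - O := by
  unfold psdR at h
  simp only [Bool.and_eq_true] at h
  obtain ⟨h1, ⟨h2, h3⟩, h4, h5⟩ := h
  have hf : ∀ a < r, f a < m := fun a ha => Nat.le_of_ble_eq_true (nall_true h3 a ha)
  exact rowC_psd (Nat.le_of_ble_eq_true h2) hf (fun i hi j hj => symC_eq h1 hi hj) h4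
    (ddS_psd (fun a ha b hb => symC_eq h1 (hf a ha) (hf b hb)) h5)

theorem psd_comp {m k : ℕ} {M : ℕ → ℕ → ℝ} (hM : PSD m M) (α : ℕ → ℕ) (hα : ∀ i < k, α i < m) :
    PSD k fun i j => M (α i) (α j) := by
  intro u
  have h := psd_lift (V := Fin k) hM (fun i => u i.1) (fun i => α i.1) (fun i => hα i.1 i.2)
  rw [Fin.sum_univ_eq_sum_range (fun d => ∑ e : Fin k, u d * u e.1 * M (α d) (α e.1))] at h
  refine le_of_le_of_eq h (sum_congr rfl fun i _ => ?_)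
  rw [Fin.sum_univ_eq_sum_range (fun e => u i * u e * M (α i) (α e))]

/-! ### the certified bound -/

/-- for all symmetric colourings of the pairs of a finite set, the density of the triples in `B` is
at most `p / q`, up to the bad quadruples -/
def Good (B p q : ℕ) : Prop := ∀ (V : Type) [Fintype V], 0 < Fintype.card V →
  ∀ rel : V → V → ℕ, (∀ x y, rel x y < 3) → (∀ x y, rel x y = rel y x) →
    (q : ℝ) * ((∑ a, ∑ b, ∑ c, (eN B (c3 rel a b c) : ℝ)) / (Fintype.card V : ℝ) ^ 3) ≤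
      p + 3250 * q * ((∑ a, ∑ b, ∑ c, ∑ d, ind (fourN B (rel a b) (rel a c) (rel a d) (rel b c)
        (rel b d) (rel c d) = 4)) / (Fintype.card V : ℝ) ^ 4)

/-! ### five vertices -/

/-- table with one `27 × 27` block for each type; `sl` gives the number of the block of a type,
15 stands for the constant block `O` -/
def t5 (b mk TT sl O t i j : ℕ) : ℕ :=
  cond (Nat.beq (tb 4 15 sl t) 15) O
    (tb b mk TT (Nat.add (Nat.mul 729 (tb 4 15 sl t)) (Nat.add (Nat.mul 27 i) j)))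
def t1 (b mk TK i j : ℕ) : ℕ := tb b mk TK (Nat.add (Nat.mul 27 i) j)
def q3N (T : ℕ → ℕ → ℕ → ℕ) (B κ c i j : ℕ) : ℕ :=
  Nat.add (T (tyN c) (pa c i) (pa c j)) (Nat.mul κ (eN B c))

theorem t5_le {b mk TT sl O : ℕ} (h : O ≤ mk) (t i j : ℕ) : t5 b mk TT sl O t i j ≤ mk := by
  unfold t5
  cases Nat.beq (tb 4 15 sl t) 15
  · exact tb_le _ _ _ _
  · exact h

theorem psd_zero (m O : ℕ) : PSD m fun _ _ => (O : ℝ) - O := by
  intro u
  simp

/-- if all the blocks of the table are positive semidefinite then all types are -/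
theorem t5_psd {b mk TT sl O k : ℕ}
    (h : ∀ s < k, PSD 27 fun i j =>
      (tb b mk TT (Nat.add (Nat.mul 729 s) (Nat.add (Nat.mul 27 i) j)) : ℝ) - O)
    (hs : (nall 10 fun t => cond (Nat.beq (tb 4 15 sl t) 15) true
      (Nat.ble (Nat.succ (tb 4 15 sl t)) k)) = true) :
    ∀ t < 10, PSD 27 fun i j => (t5 b mk TT sl O t i j : ℝ) - O := by
  intro t ht
  have h1 := nall_true hs t ht
  unfold t5
  cases h2 : Nat.beq (tb 4 15 sl t) 15
  · rw [h2, cond_false] at h1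
    exact h _ (Nat.le_of_ble_eq_true h1)
  · exact psd_zero 27 O

def leafG (q3 : ℕ → ℕ → ℕ → ℕ) (q1 : ℕ → ℕ → ℕ)
    (d01 d02 d03 d04 d12 d13 d14 d23 d24 d34 : ℕ) : ℕ :=
  Nat.add (Nat.add (q3 (cd d01 d02 d12) (cd d03 d13 d23) (cd d04 d14 d24))
    (Nat.add (q3 (cd d01 d03 d13) (cd d02 d12 d23) (cd d04 d14 d34))
    (Nat.add (q3 (cd d01 d04 d14) (cd d02 d12 d24) (cd d03 d13 d34))
    (Nat.add (q3 (cd d02 d03 d23) (cd d01 d12 d13) (cd d04 d24 d34))
    (Nat.add (q3 (cd d02 d04 d24) (cd d01 d12 d14) (cd d03 d23 d34))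
    (Nat.add (q3 (cd d03 d04 d34) (cd d01 d13 d14) (cd d02 d23 d24))
    (Nat.add (q3 (cd d12 d13 d23) (cd d01 d02 d03) (cd d14 d24 d34))
    (Nat.add (q3 (cd d12 d14 d24) (cd d01 d02 d04) (cd d13 d23 d34))
    (Nat.add (q3 (cd d13 d14 d34) (cd d01 d03 d04) (cd d12 d23 d24))
    (q3 (cd d23 d24 d34) (cd d02 d03 d04) (cd d12 d13 d14)))))))))))
   (Nat.add (q1 (cd d01 d02 d12) (cd d03 d04 d34))
    (Nat.add (q1 (cd d01 d03 d13) (cd d02 d04 d24))
    (Nat.add (q1 (cd d01 d04 d14) (cd d02 d03 d23))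
    (Nat.add (q1 (cd d01 d12 d02) (cd d13 d14 d34))
    (Nat.add (q1 (cd d01 d13 d03) (cd d12 d14 d24))
    (Nat.add (q1 (cd d01 d14 d04) (cd d12 d13 d23))
    (Nat.add (q1 (cd d02 d12 d01) (cd d23 d24 d34))
    (Nat.add (q1 (cd d02 d23 d03) (cd d12 d24 d14))
    (Nat.add (q1 (cd d02 d24 d04) (cd d12 d23 d13))
    (Nat.add (q1 (cd d03 d13 d01) (cd d23 d34 d24))
    (Nat.add (q1 (cd d03 d23 d02) (cd d13 d34 d14))
    (Nat.add (q1 (cd d03 d34 d04) (cd d13 d23 d12))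
    (Nat.add (q1 (cd d04 d14 d01) (cd d24 d34 d23))
    (Nat.add (q1 (cd d04 d24 d02) (cd d14 d34 d13))
    (q1 (cd d04 d34 d03) (cd d14 d24 d12))))))))))))))))

def chk5 (q3 : ℕ → ℕ → ℕ → ℕ) (q1 : ℕ → ℕ → ℕ) (B X d01 d02 d12 : ℕ) : Bool :=
  A3 fun d03 => A3 fun d13 => A3 fun d23 =>
  cond (Nat.beq (fourN B d01 d02 d03 d12 d13 d23) 4) true
  (A3 fun d04 => A3 fun d14 => A3 fun d24 =>
  cond (Nat.beq (fourN B d01 d02 d04 d12 d14 d24) 4) true
  (A3 fun d34 => cond (Nat.beq (fourN B d01 d03 d04 d13 d14 d34) 4) true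
  (cond (Nat.beq (fourN B d02 d03 d04 d23 d24 d34) 4) true
  (cond (Nat.beq (fourN B d12 d13 d14 d23 d24 d34) 4) true
  (Nat.ble (leafG q3 q1 d01 d02 d03 d04 d12 d13 d14 d23 d24 d34) X)))))

theorem pa_lt : (nall 27 fun c => nall 27 fun i => Nat.ble (Nat.succ (pa c i)) 27) = true := by
  decide +kernel

theorem ty_lt : (nall 27 fun c => Nat.ble (Nat.succ (tyN c)) 10) = true := by decide +kernel

/-- a certificate with five vertices for the density `p / q` of the triples in `B` -/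
structure Cert5 (B p q mk O κ X : ℕ) (T : ℕ → ℕ → ℕ → ℕ) (K : ℕ → ℕ → ℕ) : Prop where
  hT : ∀ t i j, T t i j ≤ mk
  hK : ∀ i j, K i j ≤ mk
  hq : Nat.ble 1 q = true
  hκ : Nat.ble 1 κ = true
  hX : Nat.ble (Nat.mul q X) (Nat.add (Nat.mul q (Nat.mul 25 O)) (Nat.mul 10 (Nat.mul κ p))) = true
  hm : Nat.ble (Nat.mul 25 mk) (Nat.add X (Nat.mul 6490 κ)) = true
  h3 : ∀ t < 10, PSD 27 fun i j => (T t i j : ℝ) - O
  h1 : PSD 27 fun i j => (K i j : ℝ) - O
  hc : ∀ d01 d02 d12 : ℕ, d01 < 3 → d02 < 3 → d12 < 3 →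
    chk5 (q3N T B κ) K B X d01 d02 d12 = true

theorem good5 {B p q mk O κ X : ℕ} {T : ℕ → ℕ → ℕ → ℕ} {K : ℕ → ℕ → ℕ}
    (h : Cert5 B p q mk O κ X T K) : Good B p q := by
  intro V _ hn rel hl hs
  have hq := Nat.le_of_ble_eq_true h.hq
  have hκ := Nat.le_of_ble_eq_true h.hκ
  have hX := Nat.le_of_ble_eq_true h.hX
  have hm := Nat.le_of_ble_eq_true h.hm
  simp only [Nat.add_eq, Nat.mul_eq] at hX hm
  have hqr : (1 : ℝ) ≤ q := by exact_mod_cast hq
  have hκr : (1 : ℝ) ≤ κ := by exact_mod_cast hκ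
  have hXr : (q : ℝ) * X ≤ q * (25 * O) + 10 * (κ * p) := by exact_mod_cast hX
  have hmr : (25 : ℝ) * mk ≤ X + 6490 * κ := by exact_mod_cast hm
  have hpa : ∀ c i, c < 27 → i < 27 → pa c i < 27 := fun c i hc hi =>
    Nat.le_of_ble_eq_true (nall_true (nall_true pa_lt c hc) i hi)
  have hty : ∀ c, c < 27 → tyN c < 10 := fun c hc => Nat.le_of_ble_eq_true (nall_true ty_lt c hc)
  have hNp : (0 : ℝ) < (Fintype.card V : ℝ) := by exact_mod_cast hn
  have key := flag5 hn rel hl (q3N T B κ) K (O : ℝ)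
    (fun c => (κ : ℝ) * (eN B c : ℝ)) ?_ h.h1 (X : ℝ) (6500 * κ) (by positivity)
    (fun a b' c d => fourN B (rel a b') (rel a c) (rel a d) (rel b' c) (rel b' d) (rel c d) = 4)
    ?_ ?_
  · obtain ⟨S, hS⟩ : ∃ S, S = (∑ a, ∑ b', ∑ c, (eN B (c3 rel a b' c) : ℝ)) := ⟨_, rfl⟩
    obtain ⟨Q, hQ⟩ : ∃ Q, Q = (∑ a, ∑ b', ∑ c, ∑ d, ind (fourN B (rel a b') (rel a c) (rel a d)
      (rel b' c) (rel b' d) (rel c d) = 4)) := ⟨_, rfl⟩
    have e : ∑ a, ∑ b', ∑ c, (κ : ℝ) * (eN B (c3 rel a b' c) : ℝ) = κ * S := by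
      rw [hS]
      simp only [mul_sum]
    rw [e, ← hQ] at key
    rw [← hS, ← hQ]
    obtain ⟨s, hs'⟩ : ∃ s, s = S / (Fintype.card V : ℝ) ^ 3 := ⟨_, rfl⟩
    obtain ⟨r, hr⟩ : ∃ r, r = Q / (Fintype.card V : ℝ) ^ 4 := ⟨_, rfl⟩
    rw [mul_div_assoc, mul_div_assoc, ← hs', ← hr] at key
    rw [← hs', ← hr]
    have k2 : 10 * (κ : ℝ) * (q * s) ≤ 10 * κ * (p + 3250 * q * r) := by
      have k3 := mul_le_mul_of_nonneg_left key (by linarith : (0 : ℝ) ≤ q)
      nlinarith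
    exact le_of_mul_le_mul_left k2 (by positivity)
  · intro c hc
    have h2 := psd_comp (h.h3 (tyN c) (hty c hc)) (pa c) (fun i hi => hpa c i hc hi)
    intro u
    refine le_of_le_of_eq (h2 u) (sum_congr rfl fun i _ => sum_congr rfl fun j _ => ?_)
    unfold q3N
    simp only [Nat.add_eq, Nat.mul_eq]
    push_cast
    ring
  · intro x b1 b2 b3 b4 b5
    have ne : ∀ a : ℕ, a ≠ 4 → Nat.beq a 4 = false := fun a ha => by
      cases hb : Nat.beq a 4
      · rfl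
      · exact absurd (Nat.eq_of_beq_eq_true hb) ha
    have n1 := ne _ b1
    have n2 := ne _ b2
    have n3 := ne _ b3
    have n4 := ne _ b4
    have n5 := ne _ b5
    have hc := h.hc _ _ _ (hl (x 0) (x 1)) (hl (x 0) (x 2)) (hl (x 1) (x 2))
    have h1 := A3_true (A3_true (A3_true hc (hl (x 0) (x 3))) (hl (x 1) (x 3))) (hl (x 2) (x 3))
    rw [n1, cond_false] at h1
    have h2 := A3_true (A3_true (A3_true h1 (hl (x 0) (x 4))) (hl (x 1) (x 4))) (hl (x 2) (x 4))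
    rw [n2, cond_false] at h2
    have h3 := A3_true h2 (hl (x 3) (x 4))
    rw [n3, n4, n5, cond_false, cond_false, cond_false] at h3
    have h4 : leafG (q3N T B κ) K (rel (x 0) (x 1)) (rel (x 0) (x 2))
      (rel (x 0) (x 3)) (rel (x 0) (x 4)) (rel (x 1) (x 2)) (rel (x 1) (x 3)) (rel (x 1) (x 4))
      (rel (x 2) (x 3)) (rel (x 2) (x 4)) (rel (x 3) (x 4)) ≤ X := Nat.le_of_ble_eq_true h3
    have h5 : Leaf5 rel (q3N T B κ) K x =
      leafG (q3N T B κ) K (rel (x 0) (x 1)) (rel (x 0) (x 2))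
      (rel (x 0) (x 3)) (rel (x 0) (x 4)) (rel (x 1) (x 2)) (rel (x 1) (x 3)) (rel (x 1) (x 4))
      (rel (x 2) (x 3)) (rel (x 2) (x 4)) (rel (x 3) (x 4)) := by
      unfold Leaf5 F3 F1
      rw [hs (x 1) (x 0), hs (x 2) (x 0), hs (x 3) (x 0), hs (x 4) (x 0), hs (x 2) (x 1),
        hs (x 3) (x 1), hs (x 4) (x 1), hs (x 3) (x 2), hs (x 4) (x 2), hs (x 4) (x 3)]
      rfl
    rw [h5]
    exact_mod_cast h4
  · intro x
    have c3' : ∀ c i j, q3N T B κ c i j ≤ mk + κ := by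
      intro c i j
      unfold q3N
      simp only [Nat.add_eq, Nat.mul_eq]
      have h1 := h.hT (tyN c) (pa c i) (pa c j)
      have h2 : κ * eN B c ≤ κ := by
        calc κ * eN B c ≤ κ * 1 := Nat.mul_le_mul_left _ (eN_le B c)
          _ = κ := mul_one _
      omega
    have c1' : ∀ i j, K i j ≤ mk := h.hK
    have hL : Leaf5 rel (q3N T B κ) K x ≤ 10 * (mk + κ) + 15 * mk := by
      unfold Leaf5 F3 F1
      refine le_trans (add_le_add (add_le_add (c3' _ _ _) (add_le_add (c3' _ _ _)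
        (add_le_add (c3' _ _ _) (add_le_add (c3' _ _ _) (add_le_add (c3' _ _ _)
        (add_le_add (c3' _ _ _) (add_le_add (c3' _ _ _) (add_le_add (c3' _ _ _)
        (add_le_add (c3' _ _ _) (c3' _ _ _))))))))))
        (add_le_add (c1' _ _) (add_le_add (c1' _ _) (add_le_add (c1' _ _) (add_le_add (c1' _ _)
        (add_le_add (c1' _ _) (add_le_add (c1' _ _) (add_le_add (c1' _ _) (add_le_add (c1' _ _)
        (add_le_add (c1' _ _) (add_le_add (c1' _ _) (add_le_add (c1' _ _) (add_le_add (c1' _ _)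
        (add_le_add (c1' _ _) (add_le_add (c1' _ _) (c1' _ _)))))))))))))))) ?_
      omega
    have h5 : (Leaf5 rel (q3N T B κ) K x : ℝ) ≤
        ((10 * (mk + κ) + 15 * mk : ℕ) : ℝ) := by exact_mod_cast hL
    push_cast at h5
    linarith

/-! ### four vertices -/

def t4 (b mk T s i j : ℕ) : ℕ := tb b mk T (Nat.add (Nat.mul 81 s) (Nat.add (Nat.mul 9 i) j))
def t0 (b mk T i j : ℕ) : ℕ := tb b mk T (Nat.add 243 (Nat.add (Nat.mul 3 i) j))

def leafN (b mk T B κ d01 d02 d03 d12 d13 d23 : ℕ) : ℕ :=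
  Nat.add (Nat.add (t4 b mk T d01 (ce d02 d12) (ce d03 d13))
    (Nat.add (t4 b mk T d02 (ce d01 d12) (ce d03 d23))
    (Nat.add (t4 b mk T d03 (ce d01 d13) (ce d02 d23))
    (Nat.add (t4 b mk T d12 (ce d01 d02) (ce d13 d23))
    (Nat.add (t4 b mk T d13 (ce d01 d03) (ce d12 d23))
    (t4 b mk T d23 (ce d02 d03) (ce d12 d13)))))))
    (Nat.add (Nat.add (t0 b mk T d01 d23) (Nat.add (t0 b mk T d02 d13) (t0 b mk T d03 d12)))
    (Nat.mul κ (fourN B d01 d02 d03 d12 d13 d23)))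

def chk4 (b mk T B κ X : ℕ) : Bool :=
  A3 fun d01 => A3 fun d02 => A3 fun d03 => A3 fun d12 => A3 fun d13 =>
  A3 fun d23 => cond (Nat.beq (fourN B d01 d02 d03 d12 d13 d23) 4) true
    (Nat.ble (leafN b mk T B κ d01 d02 d03 d12 d13 d23) X)

def lT (bl ml L s i k : ℕ) : ℕ := tb bl ml L (Nat.add (Nat.mul 81 s) (Nat.add (Nat.mul 9 i) k))

def psd4 (b mk T O bl ml L β σ : ℕ) : Bool :=
  and (psdD 9 O (t4 b mk T 0) (lT bl ml L 0) β σ) (and (psdD 9 O (t4 b mk T 1) (lT bl ml L 1) β σ)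
  (and (psdD 9 O (t4 b mk T 2) (lT bl ml L 2) β σ) (psdD 3 O (t0 b mk T) (lT bl ml L 3) β σ)))

def cert4 (B p q b mk T bl ml L O β σ κ X : ℕ) : Bool :=
  and (and (Nat.ble 1 q) (and (Nat.ble 1 κ)
    (and (Nat.ble (Nat.mul q X) (Nat.add (Nat.mul q (Nat.mul 9 O)) (Nat.mul 4 (Nat.mul κ p))))
      (Nat.ble (Nat.mul 9 mk) (Nat.add X (Nat.mul 12990 κ))))))
  (and (psd4 b mk T O bl ml L β σ) (chk4 b mk T B κ X))

theorem good4 {B p q b mk T bl ml L O β σ κ X : ℕ}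
    (h : cert4 B p q b mk T bl ml L O β σ κ X = true) : Good B p q := by
  intro V _ hn rel hl hs
  unfold cert4 psd4 at h
  simp only [Bool.and_eq_true] at h
  obtain ⟨⟨hq, hκ, hX, hm⟩, ⟨p0, p1, p2, p3⟩, hc⟩ := h
  have hq := Nat.le_of_ble_eq_true hq
  have hκ := Nat.le_of_ble_eq_true hκ
  have hX := Nat.le_of_ble_eq_true hX
  have hm := Nat.le_of_ble_eq_true hm
  simp only [Nat.add_eq, Nat.mul_eq] at hX hm
  have hqr : (1 : ℝ) ≤ q := by exact_mod_cast hq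
  have hκr : (1 : ℝ) ≤ κ := by exact_mod_cast hκ
  have hXr : (q : ℝ) * X ≤ q * (9 * O) + 4 * (κ * p) := by exact_mod_cast hX
  have hmr : (9 : ℝ) * mk ≤ X + 12990 * κ := by exact_mod_cast hm
  have hNp : (0 : ℝ) < (Fintype.card V : ℝ) := by exact_mod_cast hn
  have key := flag4 hn rel hl (t4 b mk T) (t0 b mk T) (fun c => κ * eN B c) (O : ℝ) ?_
    (psdD_psd p3) (X : ℝ) (13000 * κ) (by positivity)
    (fun a b' c d => fourN B (rel a b') (rel a c) (rel a d) (rel b' c) (rel b' d) (rel c d) = 4)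
    ?_ ?_
  · obtain ⟨S, hS⟩ : ∃ S, S = (∑ a, ∑ b', ∑ c, (eN B (c3 rel a b' c) : ℝ)) := ⟨_, rfl⟩
    obtain ⟨Q, hQ⟩ : ∃ Q, Q = (∑ a, ∑ b', ∑ c, ∑ d, ind (fourN B (rel a b') (rel a c) (rel a d)
      (rel b' c) (rel b' d) (rel c d) = 4)) := ⟨_, rfl⟩
    have e : ∑ a, ∑ b', ∑ c, ((κ * eN B (c3 rel a b' c) : ℕ) : ℝ) = κ * S := by
      rw [hS]
      push_cast
      simp only [mul_sum]
    rw [e, ← hQ] at key
    rw [← hS, ← hQ]
    obtain ⟨s, hs'⟩ : ∃ s, s = S / (Fintype.card V : ℝ) ^ 3 := ⟨_, rfl⟩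
    obtain ⟨r, hr⟩ : ∃ r, r = Q / (Fintype.card V : ℝ) ^ 4 := ⟨_, rfl⟩
    rw [mul_div_assoc, mul_div_assoc, ← hs', ← hr] at key
    rw [← hs', ← hr]
    have k2 : 4 * (κ : ℝ) * (q * s) ≤ 4 * κ * (p + 3250 * q * r) := by
      have k3 := mul_le_mul_of_nonneg_left key (by linarith : (0 : ℝ) ≤ q)
      nlinarith
    exact le_of_mul_le_mul_left k2 (by positivity)
  · intro k hk
    interval_cases k
    exacts [psdD_psd p0, psdD_psd p1, psdD_psd p2]
  · intro x b1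
    have ne : ∀ a : ℕ, a ≠ 4 → Nat.beq a 4 = false := fun a ha => by
      cases hb : Nat.beq a 4
      · rfl
      · exact absurd (Nat.eq_of_beq_eq_true hb) ha
    have n1 := ne _ b1
    unfold chk4 at hc
    have h1 := A3_true (A3_true (A3_true (A3_true (A3_true (A3_true hc (hl (x 0) (x 1)))
      (hl (x 0) (x 2))) (hl (x 0) (x 3))) (hl (x 1) (x 2))) (hl (x 1) (x 3))) (hl (x 2) (x 3))
    rw [n1, cond_false] at h1
    have h4 : leafN b mk T B κ (rel (x 0) (x 1)) (rel (x 0) (x 2)) (rel (x 0) (x 3))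
      (rel (x 1) (x 2)) (rel (x 1) (x 3)) (rel (x 2) (x 3)) ≤ X := Nat.le_of_ble_eq_true h1
    have h5 : Leaf4 rel (t4 b mk T) (t0 b mk T) (fun c => κ * eN B c) x =
      leafN b mk T B κ (rel (x 0) (x 1)) (rel (x 0) (x 2)) (rel (x 0) (x 3))
      (rel (x 1) (x 2)) (rel (x 1) (x 3)) (rel (x 2) (x 3)) := by
      unfold Leaf4 F2 F0 FE leafN fourN
      rw [hs (x 1) (x 0), hs (x 2) (x 0), hs (x 3) (x 0), hs (x 2) (x 1),
        hs (x 3) (x 1), hs (x 3) (x 2)]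
      simp only [Nat.add_eq, Nat.mul_eq]
      ring
    rw [h5]
    exact_mod_cast h4
  · intro x
    have c2' : ∀ s i j, t4 b mk T s i j ≤ mk := fun s i j => tb_le _ _ _ _
    have c0' : ∀ i j, t0 b mk T i j ≤ mk := fun i j => tb_le _ _ _ _
    have ce' : ∀ c, κ * eN B c ≤ κ := by
      intro c
      calc κ * eN B c ≤ κ * 1 := Nat.mul_le_mul_left _ (eN_le B c)
        _ = κ := mul_one _
    have hL : Leaf4 rel (t4 b mk T) (t0 b mk T) (fun c => κ * eN B c) x ≤ 9 * mk + 4 * κ := by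
      unfold Leaf4 F2 F0 FE
      refine le_trans (add_le_add (add_le_add (c2' _ _ _) (add_le_add (c2' _ _ _)
        (add_le_add (c2' _ _ _) (add_le_add (c2' _ _ _) (add_le_add (c2' _ _ _)
        (c2' _ _ _)))))) (add_le_add (add_le_add (c0' _ _) (add_le_add (c0' _ _) (c0' _ _)))
        (add_le_add (ce' _) (add_le_add (ce' _) (add_le_add (ce' _) (ce' _)))))) ?_
      omega
    have h5 : (Leaf4 rel (t4 b mk T) (t0 b mk T) (fun c => κ * eN B c) x : ℝ) ≤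
        ((9 * mk + 4 * κ : ℕ) : ℝ) := by exact_mod_cast hL
    push_cast at h5
    linarith

end Pool.Agent.Helper13.C3
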