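import Pool.Agent.Helper13.C3.A01
import Pool.Agent.Helper13.C3.A02
import Pool.Agent.Helper13.C3.A03
import Pool.Agent.Helper13.C3.A04
import Pool.Agent.Helper13.C3.A05
import Pool.Agent.Helper13.C3.A06
import Pool.Agent.Helper13.C3.A07
import Pool.Agent.Helper13.C3.A08
import Pool.Agent.Helper13.C3.A09
import Pool.Agent.Helper13.C3.A10
import Pool.Agent.Helper13.C3.A11
import Pool.Agent.Helper13.C3.A12
import Pool.Agent.Helper13.C3.R28
import Pool.Agent.Helper13.C3.R30
import Pool.Agent.Helper13.C3.R42
import Pool.Agent.Helper13.C3.R46
import Pool.Agent.Helper13.C3.R58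
import Pool.Agent.Helper13.C3.R92
import Pool.Agent.Helper13.C3.R94
import Pool.Agent.Helper13.C3.R102
import Pool.Agent.Helper13.C3.R108
import Pool.Agent.Helper13.C3.R110
import Pool.Agent.Helper13.C3.R116
import Pool.Agent.Helper13.C3.R118
import Pool.Agent.Helper13.C3.R124
import Pool.Agent.Helper13.C3.R126
import Pool.Agent.Helper13.C3.R142
import Pool.Agent.Helper13.C3.R150
import Pool.Agent.Helper13.C3.R158
import Pool.Agent.Helper13.C3.R162
import Pool.Agent.Helper13.C3.R166
import Pool.Agent.Helper13.C3.R172
import Pool.Agent.Helper13.C3.R174
import Pool.Agent.Helper13.C3.R179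
import Pool.Agent.Helper13.C3.R187
import Pool.Agent.Helper13.C3.R188
import Pool.Agent.Helper13.C3.R189
import Pool.Agent.Helper13.C3.R230
import Pool.Agent.Helper13.C3.R238
import Pool.Agent.Helper13.C3.R246
import Pool.Agent.Helper13.C3.R252
import Pool.Agent.Helper13.C3.R254
import Pool.Agent.Helper13.C3.R358
import Pool.Agent.Helper13.C3.R366
import Pool.Agent.Helper13.C3.R374
import Pool.Agent.Helper13.C3.R382
import Pool.Agent.Helper13.C3.R430
import Pool.Agent.Helper13.C3.R431
import Pool.Agent.Helper13.C3.R178
import Pool.Agent.Helper13.C3.R182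
import Pool.Agent.Helper13.C3.R190
import Pool.Agent.Helper13.C3.R446

/-! All rules for three colours. -/

set_option autoImplicit false

set_option maxRecDepth 100000

namespace Pool.Agent.Helper13.C3

theorem gA01 : ∀ r ∈ [0, 1, 2, 3, 6, 7, 9, 10, 11, 12, 13, 14, 15, 16], Good (bt r) 11 20 := by
  intro r hr
  simp only [List.mem_cons, List.not_mem_nil, or_false] at hr
  rcases hr with rfl | rfl | rfl | rfl | rfl | rfl | rfl | rfl | rfl | rfl | rfl | rfl | rfl | rfl
  · have e : bt 0 = 0 := by decide +kernel
    rw [e]; exact good4 A.c0
  · have e : bt 1 = 1 := by decide +kernel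
    rw [e]; exact good4 A.c1
  · have e : bt 2 = 522 := by decide +kernel
    rw [e]; exact good4 A.c2
  · have e : bt 3 = 523 := by decide +kernel
    rw [e]; exact good4 A.c3
  · have e : bt 6 = 262734 := by decide +kernel
    rw [e]; exact good4 A.c6
  · have e : bt 7 = 262735 := by decide +kernel
    rw [e]; exact good4 A.c7
  · have e : bt 9 = 5137 := by decide +kernel
    rw [e]; exact good4 A.c9
  · have e : bt 10 = 5658 := by decide +kernel
    rw [e]; exact good4 A.c10
  · have e : bt 11 = 5659 := by decide +kernel
    rw [e]; exact good4 A.c11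
  · have e : bt 12 = 267348 := by decide +kernel
    rw [e]; exact good4 A.c12
  · have e : bt 13 = 267349 := by decide +kernel
    rw [e]; exact good4 A.c13
  · have e : bt 14 = 267870 := by decide +kernel
    rw [e]; exact good4 A.c14
  · have e : bt 15 = 267871 := by decide +kernel
    rw [e]; exact good4 A.c15
  · have e : bt 16 = 2656416 := by decide +kernel
    rw [e]; exact good4 A.c16

theorem gA02 : ∀ r ∈ [17, 18, 19, 22, 23, 25, 26, 27, 29, 31, 40, 41, 43, 47], Good (bt r) 11 20 := by
  intro r hr
  simp only [List.mem_cons, List.not_mem_nil, or_false] at hr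
  rcases hr with rfl | rfl | rfl | rfl | rfl | rfl | rfl | rfl | rfl | rfl | rfl | rfl | rfl | rfl
  · have e : bt 17 = 2656417 := by decide +kernel
    rw [e]; exact good4 A.c17
  · have e : bt 18 = 2656938 := by decide +kernel
    rw [e]; exact good4 A.c18
  · have e : bt 19 = 2656939 := by decide +kernel
    rw [e]; exact good4 A.c19
  · have e : bt 22 = 2919150 := by decide +kernel
    rw [e]; exact good4 A.c22
  · have e : bt 23 = 2919151 := by decide +kernel
    rw [e]; exact good4 A.c23
  · have e : bt 25 = 2661553 := by decide +kernel
    rw [e]; exact good4 A.c25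
  · have e : bt 26 = 2662074 := by decide +kernel
    rw [e]; exact good4 A.c26
  · have e : bt 27 = 2662075 := by decide +kernel
    rw [e]; exact good4 A.c27
  · have e : bt 29 = 2923765 := by decide +kernel
    rw [e]; exact good4 A.c29
  · have e : bt 31 = 2924287 := by decide +kernel
    rw [e]; exact good4 A.c31
  · have e : bt 40 = 17831184 := by decide +kernel
    rw [e]; exact good4 A.c40
  · have e : bt 41 = 17831185 := by decide +kernel
    rw [e]; exact good4 A.c41
  · have e : bt 43 = 17831707 := by decide +kernel
    rw [e]; exact good4 A.c43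
  · have e : bt 47 = 18093919 := by decide +kernel
    rw [e]; exact good4 A.c47

theorem gA03 : ∀ r ∈ [56, 57, 59, 62, 63, 65, 67, 68, 69, 70, 71, 75, 76, 77], Good (bt r) 11 20 := by
  intro r hr
  simp only [List.mem_cons, List.not_mem_nil, or_false] at hr
  rcases hr with rfl | rfl | rfl | rfl | rfl | rfl | rfl | rfl | rfl | rfl | rfl | rfl | rfl | rfl
  · have e : bt 56 = 20487600 := by decide +kernel
    rw [e]; exact good4 A.c56
  · have e : bt 57 = 20487601 := by decide +kernel
    rw [e]; exact good4 A.c57
  · have e : bt 59 = 20488123 := by decide +kernel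
    rw [e]; exact good4 A.c59
  · have e : bt 62 = 20750334 := by decide +kernel
    rw [e]; exact good4 A.c62
  · have e : bt 63 = 20750335 := by decide +kernel
    rw [e]; exact good4 A.c63
  · have e : bt 65 = 8193 := by decide +kernel
    rw [e]; exact good4 A.c65
  · have e : bt 67 = 8715 := by decide +kernel
    rw [e]; exact good4 A.c67
  · have e : bt 68 = 270404 := by decide +kernel
    rw [e]; exact good4 A.c68
  · have e : bt 69 = 270405 := by decide +kernel
    rw [e]; exact good4 A.c69
  · have e : bt 70 = 270926 := by decide +kernel
    rw [e]; exact good4 A.c70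
  · have e : bt 71 = 270927 := by decide +kernel
    rw [e]; exact good4 A.c71
  · have e : bt 75 = 13851 := by decide +kernel
    rw [e]; exact good4 A.c75
  · have e : bt 76 = 275540 := by decide +kernel
    rw [e]; exact good4 A.c76
  · have e : bt 77 = 275541 := by decide +kernel
    rw [e]; exact good4 A.c77

theorem gA04 : ∀ r ∈ [78, 79, 81, 83, 84, 85, 86, 87, 91, 93, 95, 97, 98, 99], Good (bt r) 11 20 := by
  intro r hr
  simp only [List.mem_cons, List.not_mem_nil, or_false] at hr
  rcases hr with rfl | rfl | rfl | rfl | rfl | rfl | rfl | rfl | rfl | rfl | rfl | rfl | rfl | rfl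
  · have e : bt 78 = 276062 := by decide +kernel
    rw [e]; exact good4 A.c78
  · have e : bt 79 = 276063 := by decide +kernel
    rw [e]; exact good4 A.c79
  · have e : bt 81 = 2664609 := by decide +kernel
    rw [e]; exact good4 A.c81
  · have e : bt 83 = 2665131 := by decide +kernel
    rw [e]; exact good4 A.c83
  · have e : bt 84 = 2926820 := by decide +kernel
    rw [e]; exact good4 A.c84
  · have e : bt 85 = 2926821 := by decide +kernel
    rw [e]; exact good4 A.c85
  · have e : bt 86 = 2927342 := by decide +kernel
    rw [e]; exact good4 A.c86
  · have e : bt 87 = 2927343 := by decide +kernel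
    rw [e]; exact good4 A.c87
  · have e : bt 91 = 2670267 := by decide +kernel
    rw [e]; exact good4 A.c91
  · have e : bt 93 = 2931957 := by decide +kernel
    rw [e]; exact good4 A.c93
  · have e : bt 95 = 2932479 := by decide +kernel
    rw [e]; exact good4 A.c95
  · have e : bt 97 = 17834241 := by decide +kernel
    rw [e]; exact good4 A.c97
  · have e : bt 98 = 17834762 := by decide +kernel
    rw [e]; exact good4 A.c98
  · have e : bt 99 = 17834763 := by decide +kernel
    rw [e]; exact good4 A.c99

theorem gA05 : ∀ r ∈ [100, 101, 103, 104, 105, 106, 107, 109, 111, 113, 114, 115, 117, 119], Good (bt r) 11 20 := by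
  intro r hr
  simp only [List.mem_cons, List.not_mem_nil, or_false] at hr
  rcases hr with rfl | rfl | rfl | rfl | rfl | rfl | rfl | rfl | rfl | rfl | rfl | rfl | rfl | rfl
  · have e : bt 100 = 18096452 := by decide +kernel
    rw [e]; exact good4 A.c100
  · have e : bt 101 = 18096453 := by decide +kernel
    rw [e]; exact good4 A.c101
  · have e : bt 103 = 18096975 := by decide +kernel
    rw [e]; exact good4 A.c103
  · have e : bt 104 = 17839376 := by decide +kernel
    rw [e]; exact good4 A.c104
  · have e : bt 105 = 17839377 := by decide +kernel
    rw [e]; exact good4 A.c105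
  · have e : bt 106 = 17839898 := by decide +kernel
    rw [e]; exact good4 A.c106
  · have e : bt 107 = 17839899 := by decide +kernel
    rw [e]; exact good4 A.c107
  · have e : bt 109 = 18101589 := by decide +kernel
    rw [e]; exact good4 A.c109
  · have e : bt 111 = 18102111 := by decide +kernel
    rw [e]; exact good4 A.c111
  · have e : bt 113 = 20490657 := by decide +kernel
    rw [e]; exact good4 A.c113
  · have e : bt 114 = 20491178 := by decide +kernel
    rw [e]; exact good4 A.c114
  · have e : bt 115 = 20491179 := by decide +kernel
    rw [e]; exact good4 A.c115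
  · have e : bt 117 = 20752869 := by decide +kernel
    rw [e]; exact good4 A.c117
  · have e : bt 119 = 20753391 := by decide +kernel
    rw [e]; exact good4 A.c119

theorem gA06 : ∀ r ∈ [120, 121, 122, 123, 125, 127, 134, 135, 141, 143, 151, 157, 159, 163], Good (bt r) 11 20 := by
  intro r hr
  simp only [List.mem_cons, List.not_mem_nil, or_false] at hr
  rcases hr with rfl | rfl | rfl | rfl | rfl | rfl | rfl | rfl | rfl | rfl | rfl | rfl | rfl | rfl
  · have e : bt 120 = 20495792 := by decide +kernel
    rw [e]; exact good4 A.c120
  · have e : bt 121 = 20495793 := by decide +kernel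
    rw [e]; exact good4 A.c121
  · have e : bt 122 = 20496314 := by decide +kernel
    rw [e]; exact good4 A.c122
  · have e : bt 123 = 20496315 := by decide +kernel
    rw [e]; exact good4 A.c123
  · have e : bt 125 = 20758005 := by decide +kernel
    rw [e]; exact good4 A.c125
  · have e : bt 127 = 20758527 := by decide +kernel
    rw [e]; exact good4 A.c127
  · have e : bt 134 = 4538958 := by decide +kernel
    rw [e]; exact good4 A.c134
  · have e : bt 135 = 4538959 := by decide +kernel
    rw [e]; exact good4 A.c135
  · have e : bt 141 = 4543573 := by decide +kernel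
    rw [e]; exact good4 A.c141
  · have e : bt 143 = 4544095 := by decide +kernel
    rw [e]; exact good4 A.c143
  · have e : bt 151 = 7195375 := by decide +kernel
    rw [e]; exact good4 A.c151
  · have e : bt 157 = 7199989 := by decide +kernel
    rw [e]; exact good4 A.c157
  · have e : bt 159 = 7200511 := by decide +kernel
    rw [e]; exact good4 A.c159
  · have e : bt 163 = 22102795 := by decide +kernel
    rw [e]; exact good4 A.c163

theorem gA07 : ∀ r ∈ [167, 169, 171, 173, 175, 183, 185, 191, 197, 199, 207, 213, 215, 223], Good (bt r) 11 20 := by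
  intro r hr
  simp only [List.mem_cons, List.not_mem_nil, or_false] at hr
  rcases hr with rfl | rfl | rfl | rfl | rfl | rfl | rfl | rfl | rfl | rfl | rfl | rfl | rfl | rfl
  · have e : bt 167 = 22365007 := by decide +kernel
    rw [e]; exact good4 A.c167
  · have e : bt 169 = 22107409 := by decide +kernel
    rw [e]; exact good4 A.c169
  · have e : bt 171 = 22107931 := by decide +kernel
    rw [e]; exact good4 A.c171
  · have e : bt 173 = 22369621 := by decide +kernel
    rw [e]; exact good4 A.c173
  · have e : bt 175 = 22370143 := by decide +kernel
    rw [e]; exact good4 A.c175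
  · have e : bt 183 = 25021423 := by decide +kernel
    rw [e]; exact good4 A.c183
  · have e : bt 185 = 24763825 := by decide +kernel
    rw [e]; exact good4 A.c185
  · have e : bt 191 = 25026559 := by decide +kernel
    rw [e]; exact good4 A.c191
  · have e : bt 197 = 4546629 := by decide +kernel
    rw [e]; exact good4 A.c197
  · have e : bt 199 = 4547151 := by decide +kernel
    rw [e]; exact good4 A.c199
  · have e : bt 207 = 4552287 := by decide +kernel
    rw [e]; exact good4 A.c207
  · have e : bt 213 = 7203045 := by decide +kernel
    rw [e]; exact good4 A.c213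
  · have e : bt 215 = 7203567 := by decide +kernel
    rw [e]; exact good4 A.c215
  · have e : bt 223 = 7208703 := by decide +kernel
    rw [e]; exact good4 A.c223

theorem gA08 : ∀ r ∈ [225, 227, 229, 231, 233, 235, 236, 237, 239, 241, 243, 245, 247, 249], Good (bt r) 11 20 := by
  intro r hr
  simp only [List.mem_cons, List.not_mem_nil, or_false] at hr
  rcases hr with rfl | rfl | rfl | rfl | rfl | rfl | rfl | rfl | rfl | rfl | rfl | rfl | rfl | rfl
  · have e : bt 225 = 22110465 := by decide +kernel
    rw [e]; exact good4 A.c225
  · have e : bt 227 = 22110987 := by decide +kernel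
    rw [e]; exact good4 A.c227
  · have e : bt 229 = 22372677 := by decide +kernel
    rw [e]; exact good4 A.c229
  · have e : bt 231 = 22373199 := by decide +kernel
    rw [e]; exact good4 A.c231
  · have e : bt 233 = 22115601 := by decide +kernel
    rw [e]; exact good4 A.c233
  · have e : bt 235 = 22116123 := by decide +kernel
    rw [e]; exact good4 A.c235
  · have e : bt 236 = 22377812 := by decide +kernel
    rw [e]; exact good4 A.c236
  · have e : bt 237 = 22377813 := by decide +kernel
    rw [e]; exact good4 A.c237
  · have e : bt 239 = 22378335 := by decide +kernel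
    rw [e]; exact good4 A.c239
  · have e : bt 241 = 24766881 := by decide +kernel
    rw [e]; exact good4 A.c241
  · have e : bt 243 = 24767403 := by decide +kernel
    rw [e]; exact good4 A.c243
  · have e : bt 245 = 25029093 := by decide +kernel
    rw [e]; exact good4 A.c245
  · have e : bt 247 = 25029615 := by decide +kernel
    rw [e]; exact good4 A.c247
  · have e : bt 249 = 24772017 := by decide +kernel
    rw [e]; exact good4 A.c249

theorem gA09 : ∀ r ∈ [251, 253, 255, 353, 355, 357, 359, 363, 365, 367, 369, 371, 373, 375], Good (bt r) 11 20 := by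
  intro r hr
  simp only [List.mem_cons, List.not_mem_nil, or_false] at hr
  rcases hr with rfl | rfl | rfl | rfl | rfl | rfl | rfl | rfl | rfl | rfl | rfl | rfl | rfl | rfl
  · have e : bt 251 = 24772539 := by decide +kernel
    rw [e]; exact good4 A.c251
  · have e : bt 253 = 25034229 := by decide +kernel
    rw [e]; exact good4 A.c253
  · have e : bt 255 = 25034751 := by decide +kernel
    rw [e]; exact good4 A.c255
  · have e : bt 353 = 59908353 := by decide +kernel
    rw [e]; exact good4 A.c353
  · have e : bt 355 = 59908875 := by decide +kernel
    rw [e]; exact good4 A.c355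
  · have e : bt 357 = 60170565 := by decide +kernel
    rw [e]; exact good4 A.c357
  · have e : bt 359 = 60171087 := by decide +kernel
    rw [e]; exact good4 A.c359
  · have e : bt 363 = 59914011 := by decide +kernel
    rw [e]; exact good4 A.c363
  · have e : bt 365 = 60175701 := by decide +kernel
    rw [e]; exact good4 A.c365
  · have e : bt 367 = 60176223 := by decide +kernel
    rw [e]; exact good4 A.c367
  · have e : bt 369 = 62564769 := by decide +kernel
    rw [e]; exact good4 A.c369
  · have e : bt 371 = 62565291 := by decide +kernel
    rw [e]; exact good4 A.c371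
  · have e : bt 373 = 62826981 := by decide +kernel
    rw [e]; exact good4 A.c373
  · have e : bt 375 = 62827503 := by decide +kernel
    rw [e]; exact good4 A.c375

theorem gA10 : ∀ r ∈ [379, 381, 383, 447, 485, 487, 495, 501, 503, 511, 577, 579, 583, 587], Good (bt r) 11 20 := by
  intro r hr
  simp only [List.mem_cons, List.not_mem_nil, or_false] at hr
  rcases hr with rfl | rfl | rfl | rfl | rfl | rfl | rfl | rfl | rfl | rfl | rfl | rfl | rfl | rfl
  · have e : bt 379 = 62570427 := by decide +kernel
    rw [e]; exact good4 A.c379
  · have e : bt 381 = 62832117 := by decide +kernel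
    rw [e]; exact good4 A.c381
  · have e : bt 383 = 62832639 := by decide +kernel
    rw [e]; exact good4 A.c383
  · have e : bt 447 = 67100671 := by decide +kernel
    rw [e]; exact good4 A.c447
  · have e : bt 485 = 64446789 := by decide +kernel
    rw [e]; exact good4 A.c485
  · have e : bt 487 = 64447311 := by decide +kernel
    rw [e]; exact good4 A.c487
  · have e : bt 495 = 64452447 := by decide +kernel
    rw [e]; exact good4 A.c495
  · have e : bt 501 = 67103205 := by decide +kernel
    rw [e]; exact good4 A.c501
  · have e : bt 503 = 67103727 := by decide +kernel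
    rw [e]; exact good4 A.c503
  · have e : bt 511 = 67108863 := by decide +kernel
    rw [e]; exact good4 A.c511
  · have e : bt 577 = 67117057 := by decide +kernel
    rw [e]; exact good4 A.c577
  · have e : bt 579 = 67117579 := by decide +kernel
    rw [e]; exact good4 A.c579
  · have e : bt 583 = 67379791 := by decide +kernel
    rw [e]; exact good4 A.c583
  · have e : bt 587 = 67122715 := by decide +kernel
    rw [e]; exact good4 A.c587

theorem gA11 : ∀ r ∈ [589, 591, 593, 595, 599, 603, 605, 607, 617, 619, 623, 633, 635, 639], Good (bt r) 11 20 := by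
  intro r hr
  simp only [List.mem_cons, List.not_mem_nil, or_false] at hr
  rcases hr with rfl | rfl | rfl | rfl | rfl | rfl | rfl | rfl | rfl | rfl | rfl | rfl | rfl | rfl
  · have e : bt 589 = 67384405 := by decide +kernel
    rw [e]; exact good4 A.c589
  · have e : bt 591 = 67384927 := by decide +kernel
    rw [e]; exact good4 A.c591
  · have e : bt 593 = 69773473 := by decide +kernel
    rw [e]; exact good4 A.c593
  · have e : bt 595 = 69773995 := by decide +kernel
    rw [e]; exact good4 A.c595
  · have e : bt 599 = 70036207 := by decide +kernel
    rw [e]; exact good4 A.c599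
  · have e : bt 603 = 69779131 := by decide +kernel
    rw [e]; exact good4 A.c603
  · have e : bt 605 = 70040821 := by decide +kernel
    rw [e]; exact good4 A.c605
  · have e : bt 607 = 70041343 := by decide +kernel
    rw [e]; exact good4 A.c607
  · have e : bt 617 = 84948241 := by decide +kernel
    rw [e]; exact good4 A.c617
  · have e : bt 619 = 84948763 := by decide +kernel
    rw [e]; exact good4 A.c619
  · have e : bt 623 = 85210975 := by decide +kernel
    rw [e]; exact good4 A.c623
  · have e : bt 633 = 87604657 := by decide +kernel
    rw [e]; exact good4 A.c633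
  · have e : bt 635 = 87605179 := by decide +kernel
    rw [e]; exact good4 A.c635
  · have e : bt 639 = 87867391 := by decide +kernel
    rw [e]; exact good4 A.c639

theorem gA12 : ∀ r ∈ [711, 719, 727, 735, 739, 743, 749, 751, 755, 759, 765, 767, 1007, 1023], Good (bt r) 11 20 := by
  intro r hr
  simp only [List.mem_cons, List.not_mem_nil, or_false] at hr
  rcases hr with rfl | rfl | rfl | rfl | rfl | rfl | rfl | rfl | rfl | rfl | rfl | rfl | rfl | rfl
  · have e : bt 711 = 71656015 := by decide +kernel
    rw [e]; exact good4 A.c711
  · have e : bt 719 = 71661151 := by decide +kernel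
    rw [e]; exact good4 A.c719
  · have e : bt 727 = 74312431 := by decide +kernel
    rw [e]; exact good4 A.c727
  · have e : bt 735 = 74317567 := by decide +kernel
    rw [e]; exact good4 A.c735
  · have e : bt 739 = 89219851 := by decide +kernel
    rw [e]; exact good4 A.c739
  · have e : bt 743 = 89482063 := by decide +kernel
    rw [e]; exact good4 A.c743
  · have e : bt 749 = 89486677 := by decide +kernel
    rw [e]; exact good4 A.c749
  · have e : bt 751 = 89487199 := by decide +kernel
    rw [e]; exact good4 A.c751
  · have e : bt 755 = 91876267 := by decide +kernel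
    rw [e]; exact good4 A.c755
  · have e : bt 759 = 92138479 := by decide +kernel
    rw [e]; exact good4 A.c759
  · have e : bt 765 = 92143093 := by decide +kernel
    rw [e]; exact good4 A.c765
  · have e : bt 767 = 92143615 := by decide +kernel
    rw [e]; exact good4 A.c767
  · have e : bt 1007 = 131561311 := by decide +kernel
    rw [e]; exact good4 A.c1007
  · have e : bt 1023 = 134217727 := by decide +kernel
    rw [e]; exact good4 A.c1023

theorem gR : ∀ r ∈ [28, 30, 42, 46, 58, 92, 94, 102, 108, 110, 116, 118, 124, 126, 142, 150, 158, 162, 166, 172, 174, 179, 187, 188, 189, 230, 238, 246, 252, 254, 358, 366, 374, 382, 430, 431], Good (bt r) 11 20 := by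
  intro r hr
  simp only [List.mem_cons, List.not_mem_nil, or_false] at hr
  rcases hr with rfl | rfl | rfl | rfl | rfl | rfl | rfl | rfl | rfl | rfl | rfl | rfl | rfl | rfl | rfl | rfl | rfl | rfl | rfl | rfl | rfl | rfl | rfl | rfl | rfl | rfl | rfl | rfl | rfl | rfl | rfl | rfl | rfl | rfl | rfl | rfl
  · have e : bt 28 = 2923764 := by decide +kernel
    rw [e]; exact R28.good
  · have e : bt 30 = 2924286 := by decide +kernel
    rw [e]; exact R30.good
  · have e : bt 42 = 17831706 := by decide +kernel
    rw [e]; exact R42.good
  · have e : bt 46 = 18093918 := by decide +kernel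
    rw [e]; exact R46.good
  · have e : bt 58 = 20488122 := by decide +kernel
    rw [e]; exact R58.good
  · have e : bt 92 = 2931956 := by decide +kernel
    rw [e]; exact R92.good
  · have e : bt 94 = 2932478 := by decide +kernel
    rw [e]; exact R94.good
  · have e : bt 102 = 18096974 := by decide +kernel
    rw [e]; exact R102.good
  · have e : bt 108 = 18101588 := by decide +kernel
    rw [e]; exact R108.good
  · have e : bt 110 = 18102110 := by decide +kernel
    rw [e]; exact R110.good
  · have e : bt 116 = 20752868 := by decide +kernel
    rw [e]; exact R116.good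
  · have e : bt 118 = 20753390 := by decide +kernel
    rw [e]; exact R118.good
  · have e : bt 124 = 20758004 := by decide +kernel
    rw [e]; exact R124.good
  · have e : bt 126 = 20758526 := by decide +kernel
    rw [e]; exact R126.good
  · have e : bt 142 = 4544094 := by decide +kernel
    rw [e]; exact R142.good
  · have e : bt 150 = 7195374 := by decide +kernel
    rw [e]; exact R150.good
  · have e : bt 158 = 7200510 := by decide +kernel
    rw [e]; exact R158.good
  · have e : bt 162 = 22102794 := by decide +kernel
    rw [e]; exact R162.good
  · have e : bt 166 = 22365006 := by decide +kernel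
    rw [e]; exact R166.good
  · have e : bt 172 = 22369620 := by decide +kernel
    rw [e]; exact R172.good
  · have e : bt 174 = 22370142 := by decide +kernel
    rw [e]; exact R174.good
  · have e : bt 179 = 24759211 := by decide +kernel
    rw [e]; exact R179.good
  · have e : bt 187 = 24764347 := by decide +kernel
    rw [e]; exact R187.good
  · have e : bt 188 = 25026036 := by decide +kernel
    rw [e]; exact R188.good
  · have e : bt 189 = 25026037 := by decide +kernel
    rw [e]; exact R189.good
  · have e : bt 230 = 22373198 := by decide +kernel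
    rw [e]; exact R230.good
  · have e : bt 238 = 22378334 := by decide +kernel
    rw [e]; exact R238.good
  · have e : bt 246 = 25029614 := by decide +kernel
    rw [e]; exact R246.good
  · have e : bt 252 = 25034228 := by decide +kernel
    rw [e]; exact R252.good
  · have e : bt 254 = 25034750 := by decide +kernel
    rw [e]; exact R254.good
  · have e : bt 358 = 60171086 := by decide +kernel
    rw [e]; exact R358.good
  · have e : bt 366 = 60176222 := by decide +kernel
    rw [e]; exact R366.good
  · have e : bt 374 = 62827502 := by decide +kernel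
    rw [e]; exact R374.good
  · have e : bt 382 = 62832638 := by decide +kernel
    rw [e]; exact R382.good
  · have e : bt 430 = 64444254 := by decide +kernel
    rw [e]; exact R430.good
  · have e : bt 431 = 64444255 := by decide +kernel
    rw [e]; exact R431.good

theorem gS : ∀ r ∈ [178, 182, 190, 446], Good (bt r) 5 9 := by
  intro r hr
  simp only [List.mem_cons, List.not_mem_nil, or_false] at hr
  rcases hr with rfl | rfl | rfl | rfl
  · have e : bt 178 = 24759210 := by decide +kernel
    rw [e]; exact R178.good
  · have e : bt 182 = 25021422 := by decide +kernel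
    rw [e]; exact R182.good
  · have e : bt 190 = 25026558 := by decide +kernel
    rw [e]; exact R190.good
  · have e : bt 446 = 67100670 := by decide +kernel
    rw [e]; exact R446.good

/-- the certified rules of density at most 11/20 -/
def reps : List ℕ := [0, 1, 2, 3, 6, 7, 9, 10, 11, 12, 13, 14, 15, 16] ++ ([17, 18, 19, 22, 23, 25, 26, 27, 29, 31, 40, 41, 43, 47] ++ ([56, 57, 59, 62, 63, 65, 67, 68, 69, 70, 71, 75, 76, 77] ++ ([78, 79, 81, 83, 84, 85, 86, 87, 91, 93, 95, 97, 98, 99] ++ ([100, 101, 103, 104, 105, 106, 107, 109, 111, 113, 114, 115, 117, 119] ++ ([120, 121, 122, 123, 125, 127, 134, 135, 141, 143, 151, 157, 159, 163] ++ ([167, 169, 171, 173, 175, 183, 185, 191, 197, 199, 207, 213, 215, 223] ++ ([225, 227, 229, 231, 233, 235, 236, 237, 239, 241, 243, 245, 247, 249] ++ ([251, 253, 255, 353, 355, 357, 359, 363, 365, 367, 369, 371, 373, 375] ++ ([379, 381, 383, 447, 485, 487, 495, 501, 503, 511, 577, 579, 583, 587] ++ ([589, 591, 593, 595, 599, 603, 605, 607, 617, 619, 623, 633, 635, 639] ++ ([711, 719, 727, 735, 739, 743, 749, 751, 755, 759, 765, 767, 1007, 1023] ++ ([28, 30, 42, 46, 58,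 92, 94, 102, 108, 110, 116, 118, 124, 126, 142, 150, 158, 162, 166, 172, 174, 179, 187, 188, 189, 230, 238, 246, 252, 254, 358, 366, 374, 382, 430, 431]))))))))))))

theorem reps_good : ∀ r ∈ reps, Good (bt r) 11 20 := by
  intro r hr
  unfold reps at hr
  simp only [List.mem_append] at hr
  rcases hr with h | h | h | h | h | h | h | h | h | h | h | h | h
  · exact gA01 r h
  · exact gA02 r h
  · exact gA03 r h
  · exact gA04 r h
  · exact gA05 r h
  · exact gA06 r h
  · exact gA07 r h
  · exact gA08 r h
  · exact gA09 r h
  · exact gA10 r h
  · exact gA11 r h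
  · exact gA12 r h
  · exact gR r h

/-- tables: representative of a rule and the permutation of the colours -/
def RP : ℕ := 0x3ff1ff2ff0ff2ff0ff2df0df2ff17f27f07f2f70fb25f05f3ef1ef2ef0ef2ef0ef2cf0cf2ef16f26f06f2e70eb24f04f2ff17f2f70fb27f07f25f05f2fd17b27b07b27b07b25b05b2ef16f2e70eb26f06f24f04f2ed16b26b06b26b06b24b04b1ff1bf17f0bf1f70fe17709f0ff0bf07f03f0f70b707701f1ef1af16f0af1e70ee16708f0ef0af06f02f0e70a706700f1f717e17d0bb1f507e17505e0fd0bd07d03b0f507a07501b1e716e16d0ab1e506e16504e0ed0ad06d02b0e506a06500b2ff1f72f70f72fd0fd2d70d72df17725f0772d70f92570572ef1e72e70e72ed0ed2c70c72cf16724f0672c70e92470472f717d2f30f327b07d25d05d2d717325d0732790792530532e716d2e30e326b06d24d04d2c716324d0632690692430430ff0fe0fb0b70fd0fc0f90970df09f05f01f0d70970570170ef0ee0eb0a70ed0ec0e90870cf08f04f00f0c70870470070f70f60f30b30f507c0f105c0d709d05d01d0d50780550130e70e60e30a30e506c0e104c0c708d04d00d0c50680450032ff1f72fd0fd2f70f72d70d72f717d27b07d2f30f325d05d2ef1e72ed0ed2e70e72c70c72e716d26b06d2e30e324d04d2df1772d70f925f0772570572d717327907925d0732530532cf1672c70e924f0672470472c716326906924d06324304317f17e17b0bd17d0f617309d0fb0bb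07b03b0f30b307301d16f16e16b0ad16d0e616308d0eb0ab06b02b0e30a306300d1771761730b91750761710560f90b90790390f10720710191671661630a91650661610460e90a90690290e106206100927f1f527b0f527b0f52790d525f17525b07525d0f125305526f1e526b0e526b0e52690c524f16524b06524d0e124304525f17525d0f125b07525305525717125307125307125105124f16524d0e124b06524304524716124306124306124104107f07e07b07a07d07c07907805f05e05b01b05d05c05301306f06e06b06a06d06c06906804f04e04b00b04d04c0430030770760730720750740710540570560530190550540510110670660630620650640610440470460430090450440410011ff1bf1f70fe17f0bf17709f1f717e1f507e17d0bb17505e1ef1af1e70ee16f0af16708f1e716e1e506e16d0ab16504e0ff0bf0f70b707f03f07701f0fd0bd0f507a07d03b07501b0ef0af0e70a706f02f06700f0ed0ad0e506a06d02b06500b1bf1be17e0be17e0be17609e0fe0be07e03e0f60b607601e1af1ae16e0ae16e0ae16608e0ee0ae06e02e0e60a606600e0fe0be0f60b607e03e07601e0fc0bc07c03a07c03a07401a0ee0ae0e60a606e02e06600e0ec0ac06c02a06c02a06400a17f17e17d0f617b0bd17309d1771761750761730b917105616f16e16d0e616b0ad16308d1671661650661630a91610460fb0bb0f30b307b03b07301d0f90b90f10720790390710190eb0ab0e30a306b02b06300d0e90a90e1062069029061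0090bf0be0bb0b60bd0bc0b909609f09e05e01e09d0960560160af0ae0ab0a60ad0ac0a908608f08e04e00e08d0860460060b70b60b30b207a03a07201c09709605c01c0780380540120a70a60a30a206a02a06200c08708604c00c0680280440020ff0fe0fd0fc0fb0b70f90970f70f60f507c0f30b30f105c0ef0ee0ed0ec0eb0a70e90870e70e60e506c0e30a30e104c0df09f0d709705f01f0570170d709d0d507805d01d0550130cf08f0c708704f00f0470070c708d0c506804d00d0450030bf0be0bd0bc0bb0b60b90960b70b607a03a0b30b207201c0af0ae0ad0ac0ab0a60a90860a70a606a02a0a30a206200c09f09e09d09605e01e05601609709607803805c01c05401208f08e08d08604e00e04600608708606802804c00c04400207f07e07d07c07b07a07907807707607507407307207105406f06e06d06c06b06a06906806706606506406306206104405f05e05d05c05b01b05301305705605505405301905101104f04e04d04c04b00b04300304704604504404300904100103f03e03b03a03b03a03903801f01e01b01a01d01c01901202f02e02b02a02b02a02902800f00e00b00a00d00c00900201f01e01d01c01b01a01901201701601301201301201101000f00e00d00c00b00a009002007006003002003002001000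
def SG : ℕ := 0x455444435353455045544443535345524252444245544442425244424554444133534353333333513353435333333351435143433353435143514343335343515551455153534351555145515353435141524441535245514152444153524551115111513333333111511151333333311151414133314351115141413331435040544440535045504054444053504550425242404352444042524240435244411151435333333351115143533333335111514143333343511151414333334350415040415151435041504041515143504050424041504040405042404150404111111111113113311111111111311331111111411131113111111141113111302252424050524250225242405052425222222242225242422222224222524240035242433333335003524243333333522222224223524242222222422352424000504240005040500050424000504052222222422252224222222242225222411151115113313331115111511331333111122241133223511112224113322350000040400050405000004040005040502222222020522240222222202052224000004040033003500000404003300350002222200332224000222220033222400000000000000050000000000000005000002220000020200000222000002020011000011111113001100001111111300000002001100000000000200110000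
def S6 : ℕ := 0x12102021201120210

end Pool.Agent.Helper13.C3
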