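import Pool.Agent.Helper13.C3.Main

/-! Turán's construction, encoded by three colours. -/

set_option autoImplicit false
set_option maxRecDepth 100000
open Finset
open scoped Classical

namespace Pool.Agent.Helper13.C3

theorem six_ge {n : ℕ} {H : Finset (Finset (Fin n))} (hH : ∀ e ∈ H, e.card = 3) :
    ∑ a : Fin n, ∑ b : Fin n, ∑ c : Fin n,
      ind (({a, b, c} : Finset (Fin n)) ∈ H) ≤ 6 * (H.card : ℝ) := by
  set T : Finset (Fin n × Fin n × Fin n) :=
    univ.filter fun t => ({t.1, t.2.1, t.2.2} : Finset (Fin n)) ∈ H with hT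
  have e : ∑ a : Fin n, ∑ b : Fin n, ∑ c : Fin n,
      ind (({a, b, c} : Finset (Fin n)) ∈ H) = (T.card : ℝ) := by
    rw [hT, Finset.card_filter, Fintype.sum_prod_type]
    push_cast
    refine sum_congr rfl fun a _ => ?_
    rw [Fintype.sum_prod_type]
    refine sum_congr rfl fun b _ => sum_congr rfl fun c _ => ?_
    unfold ind
    split_ifs <;> rfl
  rw [e]
  have key0 : T.card ≤ 6 * H.card := by
    have hfw := card_eq_sum_card_fiberwise (s := T)
      (f := fun t : Fin n × Fin n × Fin n => ({t.1, t.2.1, t.2.2} : Finset (Fin n)))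
      (t := H) (fun t ht => (mem_filter.mp (mem_coe.mp ht)).2)
    rw [hfw, mul_comm 6, ← smul_eq_mul, ← sum_const]
    refine sum_le_sum fun s hs => ?_
    obtain ⟨x, y, z, hxy, hxz, hyz, rfl⟩ := Finset.card_eq_three.mp (hH s hs)
    have h6 : ({(x, y, z), (x, z, y), (y, x, z), (y, z, x), (z, x, y), (z, y, x)} :
        Finset (Fin n × Fin n × Fin n)).card = 6 := by
      rw [card_insert_of_notMem, card_insert_of_notMem, card_insert_of_notMem,
        card_insert_of_notMem, card_insert_of_notMem, card_singleton] <;>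
      simp [hxy, hxz, hyz, hxy.symm, hxz.symm, hyz.symm]
    rw [← h6]
    refine card_le_card ?_
    rintro ⟨u, v, w⟩ ht
    rw [mem_filter] at ht
    have h := ht.2
    have h3 : ({u, v, w} : Finset (Fin n)).card = 3 := by
      have h' : ({u, v, w} : Finset (Fin n)) = {x, y, z} := h
      rw [h']
      exact hH _ hs
    obtain ⟨n1, n2, n3⟩ := card_of_triple h3
    have hu : u ∈ ({x, y, z} : Finset (Fin n)) := by rw [← h]; simp
    have hv : v ∈ ({x, y, z} : Finset (Fin n)) := by rw [← h]; simp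
    have hw : w ∈ ({x, y, z} : Finset (Fin n)) := by rw [← h]; simp
    simp only [mem_insert, mem_singleton] at hu hv hw
    simp only [mem_insert, mem_singleton, Prod.mk.injEq]
    rcases hu with rfl | rfl | rfl <;> rcases hv with rfl | rfl | rfl <;>
      rcases hw with rfl | rfl | rfl <;> first
      | exact absurd rfl n1
      | exact absurd rfl n2
      | exact absurd rfl n3
      | simp
  exact_mod_cast key0

/-- the class of a vertex -/
def cls {n : ℕ} (v : Fin n) : Fin 3 := ⟨v.val % 3, Nat.mod_lt _ (by decide)⟩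

/-- the 3-graph of the triples whose multiset of classes is in `TT` -/
noncomputable def HT (n : ℕ) (TT : Finset (Multiset (Fin 3))) : Finset (Finset (Fin n)) :=
  (univ.powersetCard 3).filter fun s => s.val.map cls ∈ TT

theorem mem_HT {n : ℕ} {TT : Finset (Multiset (Fin 3))} {a b c : Fin n}
    (h : ({a, b, c} : Finset (Fin n)).card = 3) :
    ({a, b, c} : Finset (Fin n)) ∈ HT n TT ↔ ({cls a, cls b, cls c} : Multiset (Fin 3)) ∈ TT := by
  obtain ⟨n1, n2, n3⟩ := card_of_triple h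
  have e : ({a, b, c} : Finset (Fin n)).val = a ::ₘ b ::ₘ {c} := by
    rw [insert_val_of_notMem (by simp [n1, n2]), insert_val_of_notMem (by simp [n3])]
    rfl
  unfold HT
  rw [mem_filter, e]
  constructor
  · intro h'
    have := h'.2
    simpa using this
  · intro h'
    refine ⟨?_, ?_⟩
    · rw [mem_powersetCard]
      exact ⟨subset_univ _, h⟩
    · simpa using h'

theorem HT_card {n : ℕ} {TT : Finset (Multiset (Fin 3))} : ∀ e ∈ HT n TT, e.card = 3 := by
  intro e he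
  unfold HT at he
  rw [mem_filter, mem_powersetCard] at he
  exact he.1.2

theorem HT_free {n : ℕ} {TT : Finset (Multiset (Fin 3))}
    (hT : ∀ i j k l : Fin 3, ¬ (({i, j, k} : Multiset (Fin 3)) ∈ TT ∧ {i, j, l} ∈ TT ∧
      {i, k, l} ∈ TT ∧ {j, k, l} ∈ TT)) (S : Finset (Fin n)) (hS : S.card = 4) :
    ∃ s ⊆ S, s.card = 3 ∧ s ∉ HT n TT := by
  obtain ⟨a, b, c, d, hab, hac, had, hbc, hbd, hcd, rfl⟩ := Finset.card_eq_four.mp hS
  have c3' : ∀ {x y z : Fin n}, x ≠ y → x ≠ z → y ≠ z → ({x, y, z} : Finset (Fin n)).card = 3 :=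
    fun hxy hxz hyz => Finset.card_eq_three.mpr ⟨_, _, _, hxy, hxz, hyz, rfl⟩
  by_contra hcon
  push Not at hcon
  have m1 := hcon {a, b, c} (by intro x; simp; tauto) (c3' hab hac hbc)
  have m2 := hcon {a, b, d} (by intro x; simp; tauto) (c3' hab had hbd)
  have m3 := hcon {a, c, d} (by intro x; simp; tauto) (c3' hac had hcd)
  have m4 := hcon {b, c, d} (by intro x; simp; tauto) (c3' hbc hbd hcd)
  rw [mem_HT (c3' hab hac hbc)] at m1
  rw [mem_HT (c3' hab had hbd)] at m2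
  rw [mem_HT (c3' hac had hcd)] at m3
  rw [mem_HT (c3' hbc hbd hcd)] at m4
  exact hT _ _ _ _ ⟨m1, m2, m3, m4⟩

/-- the `k`-th vertex of the class `i` -/
def vx (n : ℕ) (x : Fin 3 × Fin (n / 3)) : Fin n :=
  ⟨3 * x.2.val + x.1.val, by
    have h1 := x.1.2
    have h2 := x.2.2
    omega⟩

theorem vx_inj (n : ℕ) : Function.Injective (vx n) := by
  rintro ⟨i, k⟩ ⟨j, l⟩ h
  have h' : 3 * k.val + i.val = 3 * l.val + j.val := by
    have := congrArg Fin.val h
    exact this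
  have h1 := i.2
  have h2 := j.2
  refine Prod.ext (Fin.ext ?_) (Fin.ext ?_)
  · show i.val = j.val
    omega
  · show k.val = l.val
    omega

theorem cls_vx (n : ℕ) (x : Fin 3 × Fin (n / 3)) : cls (vx n x) = x.1 := by
  have h1 := x.1.2
  refine Fin.ext ?_
  show (3 * x.2.val + x.1.val) % 3 = x.1.val
  omega

theorem sum_ge {n : ℕ} (F : Fin n → ℝ) (hF : ∀ a, 0 ≤ F a) :
    ∑ i : Fin 3, ∑ k : Fin (n / 3), F (vx n (i, k)) ≤ ∑ a : Fin n, F a := by
  have e : ∑ i : Fin 3, ∑ k : Fin (n / 3), F (vx n (i, k)) =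
      ∑ x : Fin 3 × Fin (n / 3), F (vx n x) := by
    rw [Fintype.sum_prod_type]
  rw [e, ← sum_image (s := univ) (g := vx n) (f := F) (fun a _ b _ h => vx_inj n h)]
  exact sum_le_univ_sum_of_nonneg hF

theorem pat_ge {n : ℕ} (f : Fin 3 → Fin 3 → Fin 3 → ℝ) (hf : ∀ i j k, 0 ≤ f i j k) :
    (∑ i, ∑ j, ∑ k, f i j k) * ((n / 3 : ℕ) : ℝ) ^ 3 ≤
      ∑ a : Fin n, ∑ b : Fin n, ∑ c : Fin n, f (cls a) (cls b) (cls c) := by
  have hc : ∀ (r : ℝ), ∑ _x : Fin (n / 3), r = ((n / 3 : ℕ) : ℝ) * r := by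
    intro r
    rw [sum_const, card_univ, Fintype.card_fin, nsmul_eq_mul]
  have h1 : ∀ a b : Fin n, (∑ k, f (cls a) (cls b) k) * ((n / 3 : ℕ) : ℝ) ≤
      ∑ c : Fin n, f (cls a) (cls b) (cls c) := by
    intro a b
    refine le_trans (le_of_eq ?_) (sum_ge (fun c => f (cls a) (cls b) (cls c))
      fun c => hf _ _ _)
    simp only [cls_vx, hc]
    rw [← mul_sum, mul_comm]
  have h2 : ∀ a : Fin n, (∑ j, ∑ k, f (cls a) j k) * ((n / 3 : ℕ) : ℝ) ^ 2 ≤
      ∑ b : Fin n, ∑ c : Fin n, f (cls a) (cls b) (cls c) := by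
    intro a
    refine le_trans ?_ (sum_le_sum fun b _ => h1 a b)
    refine le_trans (le_of_eq ?_) (sum_ge (fun b => (∑ k, f (cls a) (cls b) k) *
      ((n / 3 : ℕ) : ℝ)) fun b => mul_nonneg (sum_nonneg fun k _ => hf _ _ _) (Nat.cast_nonneg _))
    simp only [cls_vx, hc]
    rw [← mul_sum, ← sum_mul]
    ring
  refine le_trans ?_ (sum_le_sum fun a _ => h2 a)
  refine le_trans (le_of_eq ?_) (sum_ge (fun a => (∑ j, ∑ k, f (cls a) j k) *
      ((n / 3 : ℕ) : ℝ) ^ 2) fun b => mul_nonneg (sum_nonneg fun j _ => sum_nonneg fun k _ =>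
        hf _ _ _) (by positivity))
  simp only [cls_vx, hc]
  rw [← mul_sum, ← sum_mul]
  ring

theorem HT_ge (n : ℕ) {TT : Finset (Multiset (Fin 3))}
    (hT : ∑ i : Fin 3, ∑ j : Fin 3, ∑ k : Fin 3,
      (if ({i, j, k} : Multiset (Fin 3)) ∈ TT then 1 else 0) = 15) :
    5 / 54 * (n : ℝ) ^ 3 - 2 * (n : ℝ) ^ 2 ≤ ((HT n TT).card : ℝ) := by
  have h6 := six_ge (HT_card (n := n) (TT := TT))
  have hp := pat_ge (n := n) (fun i j k => ind (({i, j, k} : Multiset (Fin 3)) ∈ TT))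
    (fun _ _ _ => ind_nonneg _)
  have e15 : ∑ i : Fin 3, ∑ j : Fin 3, ∑ k : Fin 3, ind (({i, j, k} : Multiset (Fin 3)) ∈ TT)
      = 15 := by
    have : ((∑ i : Fin 3, ∑ j : Fin 3, ∑ k : Fin 3,
      (if ({i, j, k} : Multiset (Fin 3)) ∈ TT then 1 else 0) : ℕ) : ℝ) = ((15 : ℕ) : ℝ) := by
      exact_mod_cast hT
    push_cast at this
    rw [← this]
    refine sum_congr rfl fun i _ => sum_congr rfl fun j _ => sum_congr rfl fun k _ => ?_
    unfold ind
    split_ifs <;> rfl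
  simp only [e15] at hp
  have hc : ∀ (r : ℝ), ∑ _x : Fin n, r = n * r := by
    intro r
    rw [sum_const, card_univ, Fintype.card_fin, nsmul_eq_mul]
  have h1 : ∀ x : Fin n, ∑ y : Fin n, ind (x = y) = 1 := by
    intro x
    have h0 : ∀ y ∈ univ, y ≠ x → ind (x = y) = 0 := fun y _ hy => if_neg (Ne.symm hy)
    rw [sum_eq_single x h0 (fun h => absurd (mem_univ _) h)]
    exact ind_true rfl
  have h7 : ∑ a : Fin n, ∑ b : Fin n, ∑ c : Fin n,
      ind (({cls a, cls b, cls c} : Multiset (Fin 3)) ∈ TT) ≤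
      ∑ a : Fin n, ∑ b : Fin n, ∑ c : Fin n, (ind (({a, b, c} : Finset (Fin n)) ∈ HT n TT)
        + ind (a = b) + ind (a = c) + ind (b = c)) := by
    refine sum_le_sum fun a _ => sum_le_sum fun b _ => sum_le_sum fun c _ => ?_
    have p1 := ind_nonneg (a = b)
    have p2 := ind_nonneg (a = c)
    have p3 := ind_nonneg (b = c)
    have p4 := ind_nonneg (({a, b, c} : Finset (Fin n)) ∈ HT n TT)
    have hle : ind (({cls a, cls b, cls c} : Multiset (Fin 3)) ∈ TT) ≤ 1 := by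
      unfold ind; split_ifs <;> norm_num
    by_cases q1 : a = b
    · rw [ind_true q1]; linarith
    by_cases q2 : a = c
    · rw [ind_true q2]; linarith
    by_cases q3 : b = c
    · rw [ind_true q3]; linarith
    have q4 := mem_HT (TT := TT) (Finset.card_eq_three.mpr ⟨a, b, c, q1, q2, q3, rfl⟩)
    by_cases q5 : ({a, b, c} : Finset (Fin n)) ∈ HT n TT
    · rw [ind_true q5]; linarith
    · have : ind (({cls a, cls b, cls c} : Multiset (Fin 3)) ∈ TT) = 0 :=
        if_neg fun h => q5 (q4.mpr h)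
      rw [this]
      positivity
  simp only [sum_add_distrib] at h7
  have s1 : ∑ a : Fin n, ∑ b : Fin n, ∑ _c : Fin n, ind (a = b) = (n : ℝ) ^ 2 := by
    simp only [hc, ← mul_sum, h1]
    ring
  have s2 : ∑ a : Fin n, ∑ _b : Fin n, ∑ c : Fin n, ind (a = c) = (n : ℝ) ^ 2 := by
    simp only [hc, h1]
    ring
  have s3 : ∑ _a : Fin n, ∑ b : Fin n, ∑ c : Fin n, ind (b = c) = (n : ℝ) ^ 2 := by
    simp only [hc, h1]
    ring
  rw [s1, s2, s3] at h7
  have h8 : 15 * ((n / 3 : ℕ) : ℝ) ^ 3 ≤ 6 * ((HT n TT).card : ℝ) + 3 * (n : ℝ) ^ 2 := by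
    linarith
  have hcn : (0 : ℝ) ≤ ((HT n TT).card : ℝ) := Nat.cast_nonneg _
  rcases Nat.lt_or_ge n 3 with hn | hn
  · have hn' : (n : ℝ) ≤ 2 := by exact_mod_cast (by omega : n ≤ 2)
    have h0 : (0 : ℝ) ≤ n := Nat.cast_nonneg _
    nlinarith [sq_nonneg (n : ℝ), mul_nonneg h0 h0]
  · have hm : (n : ℝ) ≤ 3 * ((n / 3 : ℕ) : ℝ) + 2 := by
      exact_mod_cast (by omega : n ≤ 3 * (n / 3) + 2)
    have hm0 : (0 : ℝ) ≤ ((n / 3 : ℕ) : ℝ) := Nat.cast_nonneg _
    have hn3 : (3 : ℝ) ≤ n := by exact_mod_cast hn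
    obtain ⟨m, hmd⟩ : ∃ m : ℝ, m = ((n / 3 : ℕ) : ℝ) := ⟨_, rfl⟩
    rw [← hmd] at hm hm0 h8
    have h9 : ((n : ℝ) - 2) ^ 3 ≤ (3 * m) ^ 3 :=
      pow_le_pow_left₀ (by linarith) (by linarith) 3
    nlinarith [sq_nonneg (n : ℝ)]

/-- colours of a pair of classes, for the two orientations -/
def colA (i j : Fin 3) : Fin 3 := if j = i + 1 then i else if i = j + 1 then j else i
def colB (i j : Fin 3) : Fin 3 := if j = i + 1 then j else if i = j + 1 then i else i

def TA : Finset (Multiset (Fin 3)) := {{0, 1, 2}, {0, 1, 1}, {1, 2, 2}, {2, 0, 0}}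
def TB : Finset (Multiset (Fin 3)) := {{0, 1, 2}, {0, 0, 1}, {1, 1, 2}, {2, 2, 0}}

theorem colA_symm : ∀ i j, colA i j = colA j i := by decide
theorem colB_symm : ∀ i j, colB i j = colB j i := by decide

theorem TA_free : ∀ i j k l : Fin 3, ¬ (({i, j, k} : Multiset (Fin 3)) ∈ TA ∧ {i, j, l} ∈ TA ∧
      {i, k, l} ∈ TA ∧ {j, k, l} ∈ TA) := by decide
theorem TB_free : ∀ i j k l : Fin 3, ¬ (({i, j, k} : Multiset (Fin 3)) ∈ TB ∧ {i, j, l} ∈ TB ∧
      {i, k, l} ∈ TB ∧ {j, k, l} ∈ TB) := by decide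

theorem TA_fifteen : ∑ i : Fin 3, ∑ j : Fin 3, ∑ k : Fin 3,
      (if ({i, j, k} : Multiset (Fin 3)) ∈ TA then 1 else 0) = 15 := by decide
theorem TB_fifteen : ∑ i : Fin 3, ∑ j : Fin 3, ∑ k : Fin 3,
      (if ({i, j, k} : Multiset (Fin 3)) ∈ TB then 1 else 0) = 15 := by decide

theorem TA_rule : ∀ i j k : Fin 3,
    (({i, j, k} : Multiset (Fin 3)) ∈ TA ∧
      (({colA i j, colA i k, colA j k} : Multiset (Fin 3)) = {0, 1, 2} ∨
      ∃ a : Fin 3, ({colA i j, colA i k, colA j k} : Multiset (Fin 3)) = {a, a, a + 1})) ∨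
    (({i, j, k} : Multiset (Fin 3)) ∉ TA ∧
      ∃ a : Fin 3, ({colA i j, colA i k, colA j k} : Multiset (Fin 3)) = {a, a, a}) := by
  decide

theorem TB_rule : ∀ i j k : Fin 3,
    (({i, j, k} : Multiset (Fin 3)) ∈ TB ∧
      (({colB i j, colB i k, colB j k} : Multiset (Fin 3)) = {0, 1, 2} ∨
      ∃ a : Fin 3, ({colB i j, colB i k, colB j k} : Multiset (Fin 3)) = {a, a + 1, a + 1})) ∨
    (({i, j, k} : Multiset (Fin 3)) ∉ TB ∧
      ∃ a : Fin 3, ({colB i j, colB i k, colB j k} : Multiset (Fin 3)) = {a, a, a}) := by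
  decide

/-- Turán's construction obeys the exceptional rules -/
theorem lower (R : Set (Multiset (Fin 3))) (h1 : ∀ a : Fin 3, ({a, a, a} : Multiset (Fin 3)) ∉ R)
    (h2 : ({0, 1, 2} : Multiset (Fin 3)) ∈ R)
    (h3 : (∀ a : Fin 3, ({a, a, a + 1} : Multiset (Fin 3)) ∈ R) ∨
        ∀ a : Fin 3, ({a, a + 1, a + 1} : Multiset (Fin 3)) ∈ R) (n : ℕ) :
    ∃ (H : Finset (Finset (Fin n))) (col : Fin n → Fin n → Fin 3),
      (∀ e ∈ H, e.card = 3) ∧
      (∀ S : Finset (Fin n), S.card = 4 → ∃ s ⊆ S, s.card = 3 ∧ s ∉ H) ∧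
      (∀ a b, col a b = col b a) ∧
      (∀ a b c : Fin n, ({a, b, c} : Finset (Fin n)).card = 3 →
        (({a, b, c} : Finset (Fin n)) ∈ H ↔
          ({col a b, col a c, col b c} : Multiset (Fin 3)) ∈ R)) ∧
      5 / 54 * (n : ℝ) ^ 3 - 2 * (n : ℝ) ^ 2 ≤ (H.card : ℝ) := by
  rcases h3 with h3 | h3
  · refine ⟨HT n TA, fun a b => colA (cls a) (cls b), HT_card, HT_free TA_free,
      fun a b => colA_symm _ _, ?_, HT_ge n TA_fifteen⟩
    intro a b c h
    rw [mem_HT h]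
    rcases TA_rule (cls a) (cls b) (cls c) with ⟨m, h4 | ⟨x, h4⟩⟩ | ⟨m, x, h4⟩
    · rw [h4]; exact ⟨fun _ => h2, fun _ => m⟩
    · rw [h4]; exact ⟨fun _ => h3 x, fun _ => m⟩
    · rw [h4]; exact ⟨fun h => absurd h m, fun h => absurd h (h1 x)⟩
  · refine ⟨HT n TB, fun a b => colB (cls a) (cls b), HT_card, HT_free TB_free,
      fun a b => colB_symm _ _, ?_, HT_ge n TB_fifteen⟩
    intro a b c h
    rw [mem_HT h]
    rcases TB_rule (cls a) (cls b) (cls c) with ⟨m, h4 | ⟨x, h4⟩⟩ | ⟨m, x, h4⟩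
    · rw [h4]; exact ⟨fun _ => h2, fun _ => m⟩
    · rw [h4]; exact ⟨fun _ => h3 x, fun _ => m⟩
    · rw [h4]; exact ⟨fun h => absurd h m, fun h => absurd h (h1 x)⟩

end Pool.Agent.Helper13.C3
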