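import Pool.Agent.Helper13.C3.Rules
import Mathlib.Data.Nat.Bitwise
import Mathlib.Data.Fintype.Basic

/-! From 3-graphs encoded by an edge coloured graph to codes. -/

set_option autoImplicit false
set_option maxRecDepth 100000
open Finset
open scoped Classical

namespace Pool.Agent.Helper13.C3

/-- the ten multisets of three colours -/
def tm (t : ℕ) : Multiset (Fin 3) :=
  match t with
  | 0 => {0, 0, 0}
  | 1 => {0, 0, 1}
  | 2 => {0, 0, 2}
  | 3 => {0, 1, 1}
  | 4 => {0, 1, 2}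
  | 5 => {0, 2, 2}
  | 6 => {1, 1, 1}
  | 7 => {1, 1, 2}
  | 8 => {1, 2, 2}
  | _ => {2, 2, 2}

theorem tm_spec : ∀ x y z : Fin 3, tm (tyN (cd x y z)) = {x, y, z} := by decide

theorem tyN_lt {c : ℕ} (h : c < 27) : tyN c < 10 :=
  Nat.le_of_ble_eq_true (nall_true ty_lt c h)

/-- the number of a rule -/
noncomputable def ruleN (R : Set (Multiset (Fin 3))) : ℕ :=
  Nat.ofBits fun i : Fin 10 => decide (tm i ∈ R)

theorem ruleN_lt (R : Set (Multiset (Fin 3))) : ruleN R < 1024 :=
  Nat.ofBits_lt_two_pow _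

theorem eN_one (M t : ℕ) : eN M t = 1 ↔ M.testBit t = true := by
  have h1 := eN_le M t
  have h2 : M.testBit t = (1 &&& (M >>> t) != 0) := rfl
  have h3 : eN M t = (M >>> t) &&& 1 := rfl
  rw [h2, Nat.and_comm 1, ← h3]
  constructor
  · intro h; rw [h]; rfl
  · intro h
    have : eN M t ≠ 0 := by
      intro h0
      rw [h0] at h
      exact absurd h (by decide)
    omega

theorem ruleN_spec (R : Set (Multiset (Fin 3))) {t : ℕ} (ht : t < 10) :
    eN (ruleN R) t = 1 ↔ tm t ∈ R := by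
  rw [eN_one, ruleN, Nat.testBit_ofBits_lt _ _ ht, decide_eq_true_iff]

theorem code_spec (R : Set (Multiset (Fin 3))) (x y z : Fin 3) :
    eN (bt (ruleN R)) (cd x y z) = 1 ↔ ({x, y, z} : Multiset (Fin 3)) ∈ R := by
  have hc := cd_lt x.2 y.2 z.2
  rw [bt_spec _ (ruleN_lt R) _ hc, ruleN_spec R (tyN_lt hc), tm_spec]

theorem triples_le {n : ℕ} {E : Finset (Finset (Fin n))} (hE : ∀ e ∈ E, e.card = 3) :
    ∑ a : Fin n, ∑ b : Fin n, ∑ c : Fin n, ind (({a, b, c} : Finset (Fin n)) ∈ E)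
      ≤ 27 * (E.card : ℝ) := by
  have e : ∑ a : Fin n, ∑ b : Fin n, ∑ c : Fin n, ind (({a, b, c} : Finset (Fin n)) ∈ E)
      = ((univ.filter fun t : Fin n × Fin n × Fin n =>
        ({t.1, t.2.1, t.2.2} : Finset (Fin n)) ∈ E).card : ℝ) := by
    rw [Finset.card_filter, Fintype.sum_prod_type]
    push_cast
    refine sum_congr rfl fun a _ => ?_
    rw [Fintype.sum_prod_type]
    refine sum_congr rfl fun b _ => sum_congr rfl fun c _ => ?_
    unfold ind
    split_ifs <;> rfl
  have h2 : (univ.filter fun t : Fin n × Fin n × Fin n =>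
        ({t.1, t.2.1, t.2.2} : Finset (Fin n)) ∈ E) ⊆ E.biUnion fun s => s ×ˢ s ×ˢ s := by
    intro t ht
    rw [mem_filter] at ht
    rw [mem_biUnion]
    refine ⟨_, ht.2, ?_⟩
    simp [mem_product]
  have h3 : (E.biUnion fun s => s ×ˢ s ×ˢ s).card ≤ E.card * 27 := by
    refine card_biUnion_le_card_mul _ _ _ fun s hs => ?_
    rw [card_product, card_product, hE s hs]
  have h4 := (card_le_card h2).trans h3
  rw [e]
  have h5 : ((univ.filter fun t : Fin n × Fin n × Fin n =>
        ({t.1, t.2.1, t.2.2} : Finset (Fin n)) ∈ E).card : ℝ) ≤ ((E.card * 27 : ℕ) : ℝ) := by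
    exact_mod_cast h4
  push_cast at h5
  linarith

theorem six_le {n : ℕ} {H : Finset (Finset (Fin n))} (hH : ∀ e ∈ H, e.card = 3) :
    6 * (H.card : ℝ) ≤ ∑ a : Fin n, ∑ b : Fin n, ∑ c : Fin n,
      ind (({a, b, c} : Finset (Fin n)) ∈ H) := by
  set T : Finset (Fin n × Fin n × Fin n) :=
    univ.filter fun t => ({t.1, t.2.1, t.2.2} : Finset (Fin n)) ∈ H with hT
  have e : ∑ a : Fin n, ∑ b : Fin n, ∑ c : Fin n,
      ind (({a, b, c} : Finset (Fin n)) ∈ H) = (T.card : ℝ) := by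
    rw [hT, Finset.card_filter, Fintype.sum_prod_type]
    push_cast
    refine sum_congr rfl fun a _ => ?_
    rw [Fintype.sum_prod_type]
    refine sum_congr rfl fun b _ => sum_congr rfl fun c _ => ?_
    unfold ind
    split_ifs <;> rfl
  rw [e]
  have key0 : 6 * H.card ≤ T.card := by
    have hfw := card_eq_sum_card_fiberwise (s := T)
      (f := fun t : Fin n × Fin n × Fin n => ({t.1, t.2.1, t.2.2} : Finset (Fin n)))
      (t := H) (fun t ht => (mem_filter.mp (mem_coe.mp ht)).2)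
    rw [hfw, mul_comm, ← smul_eq_mul, ← sum_const]
    refine sum_le_sum fun s hs => ?_
    obtain ⟨x, y, z, hxy, hxz, hyz, rfl⟩ := Finset.card_eq_three.mp (hH s hs)
    have h6 : ({(x, y, z), (x, z, y), (y, x, z), (y, z, x), (z, x, y), (z, y, x)} :
        Finset (Fin n × Fin n × Fin n)).card = 6 := by
      rw [card_insert_of_notMem, card_insert_of_notMem, card_insert_of_notMem,
        card_insert_of_notMem, card_insert_of_notMem, card_singleton] <;>
      simp [hxy, hxz, hyz, hxy.symm, hxz.symm, hyz.symm]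
    rw [← h6]
    have key : ∀ u v w : Fin n, ({u, v, w} : Finset (Fin n)) = {x, y, z} →
        (u, v, w) ∈ T.filter (fun t : Fin n × Fin n × Fin n =>
          ({t.1, t.2.1, t.2.2} : Finset (Fin n)) = {x, y, z}) := by
      intro u v w h
      have hm : ({u, v, w} : Finset (Fin n)) ∈ H := by rw [h]; exact hs
      rw [mem_filter, hT, mem_filter]
      exact ⟨⟨mem_univ _, hm⟩, h⟩
    refine card_le_card ?_
    intro t ht
    simp only [mem_insert, mem_singleton] at ht
    rcases ht with h | h | h | h | h | h <;> rw [h]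
    · exact key x y z rfl
    · exact key x z y (by rw [pair_comm z y])
    · exact key y x z (insert_comm _ _ _)
    · exact key y z x (by rw [pair_comm z x, insert_comm])
    · exact key z x y (by rw [insert_comm z x, pair_comm z y])
    · exact key z y x (by rw [pair_comm y x, insert_comm z x, pair_comm z y])
  exact_mod_cast key0

theorem card_of_triple {n : ℕ} {a b c : Fin n} (h : ({a, b, c} : Finset (Fin n)).card = 3) :
    a ≠ b ∧ a ≠ c ∧ b ≠ c := by
  refine ⟨?_, ?_, ?_⟩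
  · rintro rfl
    have : ({a, a, c} : Finset (Fin n)).card ≤ 2 := by
      rw [insert_eq_of_mem (mem_insert_self a {c})]
      exact card_le_two
    omega
  · rintro rfl
    have : ({a, b, a} : Finset (Fin n)).card ≤ 2 := by
      rw [insert_eq_of_mem (by simp : a ∈ ({b, a} : Finset (Fin n)))]
      exact card_le_two
    omega
  · rintro rfl
    have : ({a, b, b} : Finset (Fin n)).card ≤ 2 := by
      have : ({b, b} : Finset (Fin n)) = {b} := by simp
      rw [this]
      exact card_le_two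
    omega

theorem four_sets {n : ℕ} {H : Finset (Finset (Fin n))}
    (hK : ∀ S : Finset (Fin n), S.card = 4 → ∃ s ⊆ S, s.card = 3 ∧ s ∉ H) {a b c d : Fin n}
    (hab : a ≠ b) (hac : a ≠ c) (had : a ≠ d) (hbc : b ≠ c) (hbd : b ≠ d) (hcd : c ≠ d)
    (h1 : ({a, b, c} : Finset (Fin n)) ∈ H) (h2 : ({a, b, d} : Finset (Fin n)) ∈ H)
    (h3 : ({a, c, d} : Finset (Fin n)) ∈ H) (h4 : ({b, c, d} : Finset (Fin n)) ∈ H) : False := by
  have hc : ({a, b, c, d} : Finset (Fin n)).card = 4 := by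
    rw [card_insert_of_notMem, card_insert_of_notMem, card_insert_of_notMem, card_singleton] <;>
    simp [hab, hac, had, hbc, hbd, hcd]
  obtain ⟨s, hs, hs3, hsH⟩ := hK _ hc
  have h5 : (({a, b, c, d} : Finset (Fin n)) \ s).card = 1 := by
    rw [card_sdiff_of_subset hs, hc, hs3]
  obtain ⟨v, hv⟩ := Finset.card_eq_one.mp h5
  have hse : s = ({a, b, c, d} : Finset (Fin n)) \ {v} := by
    rw [← hv, sdiff_sdiff_right_self]
    exact (inf_eq_right.mpr hs).symm
  have hvm : v ∈ ({a, b, c, d} : Finset (Fin n)) := by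
    have : v ∈ ({a, b, c, d} : Finset (Fin n)) \ s := by rw [hv]; simp
    exact (mem_sdiff.mp this).1
  simp only [mem_insert, mem_singleton] at hvm
  have e1 : ({a, b, c, d} : Finset (Fin n)) \ {a} = {b, c, d} := by
    ext w; simp only [mem_sdiff, mem_insert, mem_singleton]
    constructor
    · rintro ⟨h | h, h'⟩
      · exact absurd h h'
      · exact h
    · intro h
      refine ⟨Or.inr h, ?_⟩
      rintro rfl
      rcases h with h | h | h <;> contradiction
  have e2 : ({a, b, c, d} : Finset (Fin n)) \ {b} = {a, c, d} := by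
    ext w; simp only [mem_sdiff, mem_insert, mem_singleton]
    constructor
    · rintro ⟨h | h | h, h'⟩
      · exact Or.inl h
      · exact absurd h h'
      · exact Or.inr h
    · rintro (h | h | h)
      · exact ⟨Or.inl h, by rw [h]; exact hab⟩
      · exact ⟨Or.inr (Or.inr (Or.inl h)), by rw [h]; exact hbc.symm⟩
      · exact ⟨Or.inr (Or.inr (Or.inr h)), by rw [h]; exact hbd.symm⟩
  have e3 : ({a, b, c, d} : Finset (Fin n)) \ {c} = {a, b, d} := by
    ext w; simp only [mem_sdiff, mem_insert, mem_singleton]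
    constructor
    · rintro ⟨h | h | h | h, h'⟩
      · exact Or.inl h
      · exact Or.inr (Or.inl h)
      · exact absurd h h'
      · exact Or.inr (Or.inr h)
    · rintro (h | h | h)
      · exact ⟨Or.inl h, by rw [h]; exact hac⟩
      · exact ⟨Or.inr (Or.inl h), by rw [h]; exact hbc⟩
      · exact ⟨Or.inr (Or.inr (Or.inr h)), by rw [h]; exact hcd.symm⟩
  have e4 : ({a, b, c, d} : Finset (Fin n)) \ {d} = {a, b, c} := by
    ext w; simp only [mem_sdiff, mem_insert, mem_singleton]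
    constructor
    · rintro ⟨h | h | h | h, h'⟩
      · exact Or.inl h
      · exact Or.inr (Or.inl h)
      · exact Or.inr (Or.inr h)
      · exact absurd h h'
    · rintro (h | h | h)
      · exact ⟨Or.inl h, by rw [h]; exact had⟩
      · exact ⟨Or.inr (Or.inl h), by rw [h]; exact hbd⟩
      · exact ⟨Or.inr (Or.inr (Or.inl h)), by rw [h]; exact hcd⟩
  rcases hvm with rfl | rfl | rfl | rfl
  · exact hsH (by rw [hse, e1]; exact h4)
  · exact hsH (by rw [hse, e2]; exact h3)
  · exact hsH (by rw [hse, e3]; exact h2)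
  · exact hsH (by rw [hse, e4]; exact h1)

section
variable {n : ℕ} {H E : Finset (Finset (Fin n))} {col : Fin n → Fin n → Fin 3}
  {R : Set (Multiset (Fin 3))}

theorem bad_le (hK : ∀ S : Finset (Fin n), S.card = 4 → ∃ s ⊆ S, s.card = 3 ∧ s ∉ H)
    (hO : ∀ a b c : Fin n, ({a, b, c} : Finset (Fin n)).card = 3 →
      ({a, b, c} : Finset (Fin n)) ∉ E → ({col a b, col a c, col b c} : Multiset (Fin 3)) ∈ R →
      ({a, b, c} : Finset (Fin n)) ∈ H)
    (a b c d : Fin n) :
    ind (fourN (bt (ruleN R)) (col a b) (col a c) (col a d) (col b c) (col b d) (col c d) = 4)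
      ≤ ind (a = b) + ind (a = c) + ind (a = d) + ind (b = c) + ind (b = d) + ind (c = d)
        + ind (({a, b, c} : Finset (Fin n)) ∈ E) + ind (({a, b, d} : Finset (Fin n)) ∈ E)
        + ind (({a, c, d} : Finset (Fin n)) ∈ E) + ind (({b, c, d} : Finset (Fin n)) ∈ E) := by
  have p1 := ind_nonneg (a = b)
  have p2 := ind_nonneg (a = c)
  have p3 := ind_nonneg (a = d)
  have p4 := ind_nonneg (b = c)
  have p5 := ind_nonneg (b = d)
  have p6 := ind_nonneg (c = d)
  have p7 := ind_nonneg (({a, b, c} : Finset (Fin n)) ∈ E)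
  have p8 := ind_nonneg (({a, b, d} : Finset (Fin n)) ∈ E)
  have p9 := ind_nonneg (({a, c, d} : Finset (Fin n)) ∈ E)
  have p10 := ind_nonneg (({b, c, d} : Finset (Fin n)) ∈ E)
  by_cases hf : fourN (bt (ruleN R)) (col a b) (col a c) (col a d) (col b c) (col b d)
      (col c d) = 4
  swap
  · have : ind (fourN (bt (ruleN R)) (col a b) (col a c) (col a d) (col b c) (col b d)
      (col c d) = 4) = 0 := if_neg hf
    rw [this]
    positivity
  rw [ind_true hf]
  by_cases h1 : a = b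
  · rw [ind_true h1]; linarith
  by_cases h2 : a = c
  · rw [ind_true h2]; linarith
  by_cases h3 : a = d
  · rw [ind_true h3]; linarith
  by_cases h4 : b = c
  · rw [ind_true h4]; linarith
  by_cases h5 : b = d
  · rw [ind_true h5]; linarith
  by_cases h6 : c = d
  · rw [ind_true h6]; linarith
  by_cases h7 : ({a, b, c} : Finset (Fin n)) ∈ E
  · rw [ind_true h7]; linarith
  by_cases h8 : ({a, b, d} : Finset (Fin n)) ∈ E
  · rw [ind_true h8]; linarith
  by_cases h9 : ({a, c, d} : Finset (Fin n)) ∈ E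
  · rw [ind_true h9]; linarith
  by_cases h10 : ({b, c, d} : Finset (Fin n)) ∈ E
  · rw [ind_true h10]; linarith
  exfalso
  have hf' : eN (bt (ruleN R)) (cd (col a b) (col a c) (col b c))
      + (eN (bt (ruleN R)) (cd (col a b) (col a d) (col b d))
      + (eN (bt (ruleN R)) (cd (col a c) (col a d) (col c d))
      + eN (bt (ruleN R)) (cd (col b c) (col b d) (col c d)))) = 4 := hf
  have l1 := eN_le (bt (ruleN R)) (cd (col a b) (col a c) (col b c))
  have l2 := eN_le (bt (ruleN R)) (cd (col a b) (col a d) (col b d))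
  have l3 := eN_le (bt (ruleN R)) (cd (col a c) (col a d) (col c d))
  have l4 := eN_le (bt (ruleN R)) (cd (col b c) (col b d) (col c d))
  have c3' : ∀ {x y z : Fin n}, x ≠ y → x ≠ z → y ≠ z → ({x, y, z} : Finset (Fin n)).card = 3 :=
    fun hxy hxz hyz => Finset.card_eq_three.mpr ⟨_, _, _, hxy, hxz, hyz, rfl⟩
  have m1 := hO a b c (c3' h1 h2 h4) h7 ((code_spec R _ _ _).mp (by omega))
  have m2 := hO a b d (c3' h1 h3 h5) h8 ((code_spec R _ _ _).mp (by omega))
  have m3 := hO a c d (c3' h2 h3 h6) h9 ((code_spec R _ _ _).mp (by omega))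
  have m4 := hO b c d (c3' h4 h5 h6) h10 ((code_spec R _ _ _).mp (by omega))
  exact four_sets hK h1 h2 h3 h4 h5 h6 m1 m2 m3 m4

theorem sum_bad_le (hK : ∀ S : Finset (Fin n), S.card = 4 → ∃ s ⊆ S, s.card = 3 ∧ s ∉ H)
    (hE : ∀ e ∈ E, e.card = 3)
    (hO : ∀ a b c : Fin n, ({a, b, c} : Finset (Fin n)).card = 3 →
      ({a, b, c} : Finset (Fin n)) ∉ E → ({col a b, col a c, col b c} : Multiset (Fin 3)) ∈ R →
      ({a, b, c} : Finset (Fin n)) ∈ H) :
    ∑ a : Fin n, ∑ b : Fin n, ∑ c : Fin n, ∑ d : Fin n,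
      ind (fourN (bt (ruleN R)) (col a b) (col a c) (col a d) (col b c) (col b d) (col c d) = 4)
      ≤ 6 * (n : ℝ) ^ 3 + 108 * (n * (E.card : ℝ)) := by
  have hT := triples_le hE
  have h1 : ∀ x : Fin n, ∑ y : Fin n, ind (x = y) = 1 := by
    intro x
    have h0 : ∀ y ∈ univ, y ≠ x → ind (x = y) = 0 := fun y _ hy => if_neg (Ne.symm hy)
    rw [sum_eq_single x h0 (fun h => absurd (mem_univ _) h)]
    exact ind_true rfl
  have hc : ∀ (r : ℝ), ∑ _x : Fin n, r = n * r := by
    intro r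
    rw [sum_const, card_univ, Fintype.card_fin, nsmul_eq_mul]
  refine le_trans (sum_le_sum fun a _ => sum_le_sum fun b _ => sum_le_sum fun c _ =>
    sum_le_sum fun d _ => bad_le hK hO a b c d) ?_
  simp only [sum_add_distrib]
  have s1 : ∑ a : Fin n, ∑ b : Fin n, ∑ _c : Fin n, ∑ _d : Fin n, ind (a = b) = (n : ℝ) ^ 3 := by
    simp only [hc, ← mul_sum, h1]
    ring
  have s2 : ∑ a : Fin n, ∑ _b : Fin n, ∑ c : Fin n, ∑ _d : Fin n, ind (a = c) = (n : ℝ) ^ 3 := by
    simp only [hc, ← mul_sum, h1]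
    ring
  have s3 : ∑ a : Fin n, ∑ _b : Fin n, ∑ _c : Fin n, ∑ d : Fin n, ind (a = d) = (n : ℝ) ^ 3 := by
    simp only [hc, ← mul_sum, h1]
    ring
  have s4 : ∑ _a : Fin n, ∑ b : Fin n, ∑ c : Fin n, ∑ _d : Fin n, ind (b = c) = (n : ℝ) ^ 3 := by
    simp only [hc, ← mul_sum, h1]
    ring
  have s5 : ∑ _a : Fin n, ∑ b : Fin n, ∑ _c : Fin n, ∑ d : Fin n, ind (b = d) = (n : ℝ) ^ 3 := by
    simp only [hc, ← mul_sum, h1]
    ring
  have s6 : ∑ _a : Fin n, ∑ _b : Fin n, ∑ c : Fin n, ∑ d : Fin n, ind (c = d) = (n : ℝ) ^ 3 := by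
    simp only [hc, ← mul_sum, h1]
    ring
  have s7 : ∑ a : Fin n, ∑ b : Fin n, ∑ c : Fin n, ∑ _d : Fin n,
      ind (({a, b, c} : Finset (Fin n)) ∈ E) ≤ n * (27 * (E.card : ℝ)) := by
    simp only [hc, ← mul_sum]
    exact mul_le_mul_of_nonneg_left hT (Nat.cast_nonneg _)
  have s8 : ∑ a : Fin n, ∑ b : Fin n, ∑ _c : Fin n, ∑ d : Fin n,
      ind (({a, b, d} : Finset (Fin n)) ∈ E) ≤ n * (27 * (E.card : ℝ)) := by
    simp only [hc, ← mul_sum]
    exact mul_le_mul_of_nonneg_left hT (Nat.cast_nonneg _)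
  have s9 : ∑ a : Fin n, ∑ _b : Fin n, ∑ c : Fin n, ∑ d : Fin n,
      ind (({a, c, d} : Finset (Fin n)) ∈ E) ≤ n * (27 * (E.card : ℝ)) := by
    simp only [hc, ← mul_sum]
    exact mul_le_mul_of_nonneg_left hT (Nat.cast_nonneg _)
  have s10 : ∑ _a : Fin n, ∑ b : Fin n, ∑ c : Fin n, ∑ d : Fin n,
      ind (({b, c, d} : Finset (Fin n)) ∈ E) ≤ n * (27 * (E.card : ℝ)) := by
    simp only [hc]
    exact mul_le_mul_of_nonneg_left hT (Nat.cast_nonneg _)
  rw [s1, s2, s3, s4, s5, s6]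
  linarith

/-- the upper bound for a 3-graph that obeys the rule `R` outside the set `E` of triples -/
theorem upper {p q : ℕ} (hq : 0 < q) (hG : Good (bt (ruleN R)) p q)
    (hH : ∀ e ∈ H, e.card = 3) (hE : ∀ e ∈ E, e.card = 3)
    (hK : ∀ S : Finset (Fin n), S.card = 4 → ∃ s ⊆ S, s.card = 3 ∧ s ∉ H)
    (hcol : ∀ a b, col a b = col b a)
    (hO : ∀ a b c : Fin n, ({a, b, c} : Finset (Fin n)).card = 3 →
      ({a, b, c} : Finset (Fin n)) ∉ E →
      (({a, b, c} : Finset (Fin n)) ∈ H ↔ ({col a b, col a c, col b c} : Multiset (Fin 3)) ∈ R)) :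
    (H.card : ℝ) ≤ (p : ℝ) / (6 * q) * (n : ℝ) ^ 3 + 60000 * ((n : ℝ) ^ 2 + E.card) := by
  rcases Nat.eq_zero_or_pos n with hn | hn
  · subst hn
    have : H = ∅ := by
      rw [Finset.eq_empty_iff_forall_notMem]
      intro e he
      have h3 := hH e he
      have h4 : e.card ≤ 0 := by
        have := card_le_univ e
        rwa [Fintype.card_fin] at this
      omega
    rw [this]
    simp only [card_empty, Nat.cast_zero]
    positivity
  have hn' : (0 : ℝ) < n := by exact_mod_cast hn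
  have hq' : (0 : ℝ) < q := by exact_mod_cast hq
  have hc : Fintype.card (Fin n) = n := Fintype.card_fin n
  have g := hG (Fin n) (by rw [hc]; exact hn) (fun a b => (col a b : ℕ))
    (fun a b => (col a b).2) (fun a b => by rw [hcol a b])
  rw [hc] at g
  have hS := sum_bad_le hK hE (fun a b c h3 hn => (hO a b c h3 hn).mpr)
  have h6 := six_le hH
  have hT := triples_le hE
  -- ordered triples
  have h7 : ∑ a : Fin n, ∑ b : Fin n, ∑ c : Fin n, ind (({a, b, c} : Finset (Fin n)) ∈ H)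
      ≤ (∑ a : Fin n, ∑ b : Fin n, ∑ c : Fin n,
        (eN (bt (ruleN R)) (c3 (fun a b => (col a b : ℕ)) a b c) : ℝ))
        + ∑ a : Fin n, ∑ b : Fin n, ∑ c : Fin n, ind (({a, b, c} : Finset (Fin n)) ∈ E) := by
    simp only [← sum_add_distrib]
    refine sum_le_sum fun a _ => sum_le_sum fun b _ => sum_le_sum fun c _ => ?_
    have p7 := ind_nonneg (({a, b, c} : Finset (Fin n)) ∈ E)
    have p8 : (0 : ℝ) ≤ (eN (bt (ruleN R)) (c3 (fun a b => (col a b : ℕ)) a b c) : ℝ) :=
      Nat.cast_nonneg _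
    by_cases hm : ({a, b, c} : Finset (Fin n)) ∈ H
    · rw [ind_true hm]
      by_cases he : ({a, b, c} : Finset (Fin n)) ∈ E
      · rw [ind_true he]; linarith
      · have h1 : eN (bt (ruleN R)) (c3 (fun a b => (col a b : ℕ)) a b c) = 1 :=
          (code_spec R _ _ _).mpr ((hO a b c (hH _ hm) he).mp hm)
        rw [h1]
        push_cast
        linarith
    · have : ind (({a, b, c} : Finset (Fin n)) ∈ H) = 0 := if_neg hm
      rw [this]
      linarith
  obtain ⟨S3, hS3⟩ : ∃ S3 : ℝ, S3 = ∑ a : Fin n, ∑ b : Fin n, ∑ c : Fin n,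
        (eN (bt (ruleN R)) (c3 (fun a b => (col a b : ℕ)) a b c) : ℝ) := ⟨_, rfl⟩
  obtain ⟨S4, hS4⟩ : ∃ S4 : ℝ, S4 = ∑ a : Fin n, ∑ b : Fin n, ∑ c : Fin n, ∑ d : Fin n,
      ind (fourN (bt (ruleN R)) (col a b) (col a c) (col a d) (col b c) (col b d)
        (col c d) = 4) := ⟨_, rfl⟩
  rw [← hS3] at h7
  rw [← hS4] at hS
  have g' : (q : ℝ) * (S3 / (n : ℝ) ^ 3) ≤ p + 3250 * q * (S4 / (n : ℝ) ^ 4) := by
    rw [hS3, hS4]
    exact g
  have g2 : (q : ℝ) * S3 ≤ p * (n : ℝ) ^ 3 + 3250 * q * (6 * (n : ℝ) ^ 2 + 108 * E.card) := by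
    have e1 : (q : ℝ) * S3 = (q : ℝ) * (S3 / (n : ℝ) ^ 3) * (n : ℝ) ^ 3 := by
      field_simp
    rw [e1]
    refine le_trans (mul_le_mul_of_nonneg_right g' (by positivity)) ?_
    have e2 : ((p : ℝ) + 3250 * q * (S4 / (n : ℝ) ^ 4)) * (n : ℝ) ^ 3
        = p * (n : ℝ) ^ 3 + 3250 * q * (S4 / n) := by
      field_simp
    rw [e2]
    have e3 : S4 / n ≤ 6 * (n : ℝ) ^ 2 + 108 * E.card := by
      rw [div_le_iff₀ hn']
      refine le_trans hS ?_
      apply le_of_eq
      ring
    have e4 : 3250 * (q : ℝ) * (S4 / n) ≤ 3250 * q * (6 * (n : ℝ) ^ 2 + 108 * E.card) :=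
      mul_le_mul_of_nonneg_left e3 (by positivity)
    linarith
  have g3 : S3 ≤ (p : ℝ) / q * (n : ℝ) ^ 3 + 3250 * (6 * (n : ℝ) ^ 2 + 108 * E.card) := by
    have e5 : (q : ℝ) * ((p : ℝ) / q * (n : ℝ) ^ 3 + 3250 * (6 * (n : ℝ) ^ 2 + 108 * E.card))
        = p * (n : ℝ) ^ 3 + 3250 * q * (6 * (n : ℝ) ^ 2 + 108 * E.card) := by
      field_simp
    rw [← e5] at g2
    exact le_of_mul_le_mul_left g2 hq'
  have e6 : (p : ℝ) / (6 * q) * (n : ℝ) ^ 3 = ((p : ℝ) / q * (n : ℝ) ^ 3) / 6 := by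
    field_simp
  rw [e6]
  have hEn : (0 : ℝ) ≤ E.card := Nat.cast_nonneg _
  have hnn : (0 : ℝ) ≤ (n : ℝ) ^ 2 := by positivity
  linarith

end

/-- the rules of Turán's construction -/
theorem exc_of {R : Set (Multiset (Fin 3))} (h : excB (ruleN R) = true) :
    (∀ a : Fin 3, ({a, a, a} : Multiset (Fin 3)) ∉ R) ∧ ({0, 1, 2} : Multiset (Fin 3)) ∈ R ∧
      ((∀ a : Fin 3, ({a, a, a + 1} : Multiset (Fin 3)) ∈ R) ∨
        ∀ a : Fin 3, ({a, a + 1, a + 1} : Multiset (Fin 3)) ∈ R) := by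
  unfold excB at h
  rw [Bool.and_eq_true, Bool.and_eq_true, Bool.or_eq_true, Nat.beq_eq, Nat.beq_eq, Nat.beq_eq,
    Nat.beq_eq] at h
  simp only [Nat.add_eq] at h
  obtain ⟨⟨h1, h2⟩, h3⟩ := h
  have l := eN_le (ruleN R)
  have s : ∀ t, t < 10 → eN (ruleN R) t = 1 → tm t ∈ R := fun t ht => (ruleN_spec R ht).mp
  have s' : ∀ t, t < 10 → eN (ruleN R) t = 0 → tm t ∉ R := by
    intro t ht h0 hm
    have := (ruleN_spec R ht).mpr hm
    omega
  refine ⟨?_, s 4 (by decide) h2, ?_⟩
  · intro a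
    fin_cases a
    · exact s' 0 (by decide) (by omega)
    · exact s' 6 (by decide) (by omega)
    · exact s' 9 (by decide) (by omega)
  · have l1 := l 1
    have l7 := l 7
    have l5 := l 5
    have l3 := l 3
    have l8 := l 8
    have l2 := l 2
    rcases h3 with h3 | h3
    · left
      intro a
      fin_cases a
      · exact s 1 (by decide) (by omega)
      · exact s 7 (by decide) (by omega)
      · have := s 5 (by decide) (by omega)
        have e : ({2, 2, 2 + 1} : Multiset (Fin 3)) = tm 5 := by decide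
        show ({2, 2, 2 + 1} : Multiset (Fin 3)) ∈ R
        rw [e]
        exact this
    · right
      intro a
      fin_cases a
      · exact s 3 (by decide) (by omega)
      · exact s 8 (by decide) (by omega)
      · have := s 2 (by decide) (by omega)
        have e : ({2, 2 + 1, 2 + 1} : Multiset (Fin 3)) = tm 2 := by decide
        show ({2, 2 + 1, 2 + 1} : Multiset (Fin 3)) ∈ R
        rw [e]
        exact this

end Pool.Agent.Helper13.C3
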