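import Mathlib.Data.Real.Basic
import Mathlib.Data.Fintype.BigOperators
import Mathlib.Algebra.BigOperators.Field
import Mathlib.Algebra.BigOperators.Fin
import Mathlib.Algebra.Order.BigOperators.Ring.Finset
import Mathlib.Algebra.Order.Chebyshev
import Mathlib.Tactic.Ring
import Mathlib.Tactic.Linarith
import Mathlib.Tactic.FieldSimp
import Mathlib.Tactic.Positivity
import Mathlib.Tactic.IntervalCases
import Mathlib.Tactic.FinCases
import Mathlib.Tactic.NormNum

/-! Kernel-reducible checks that a symmetric integer matrix is positive semidefinite. -/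

set_option autoImplicit false
open Finset

namespace Pool.Agent.Helper13.C3

def nsum (n : ℕ) (f : ℕ → ℕ) : ℕ := Nat.rec 0 (fun k s => Nat.add s (f k)) n
def nall (n : ℕ) (f : ℕ → Bool) : Bool := Nat.rec true (fun k s => and s (f k)) n

theorem nsum_eq (n : ℕ) (f : ℕ → ℕ) : nsum n f = ∑ k ∈ range n, f k := by
  induction n with
  | zero => rfl
  | succ n ih => rw [sum_range_succ, ← ih]; rfl

theorem nall_true {n : ℕ} {f : ℕ → Bool} (h : nall n f = true) : ∀ k < n, f k = true := by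
  induction n with
  | zero => intro k hk; omega
  | succ n ih =>
    have h' : (and (nall n f) (f n)) = true := h
    rw [Bool.and_eq_true] at h'
    intro k hk
    rcases Nat.lt_succ_iff_lt_or_eq.mp hk with h1 | rfl
    · exact ih h'.1 k h1
    · exact h'.2

/-- entry `e` of a table of `b`-bit numbers, `m` is the mask -/
def tb (b m T e : ℕ) : ℕ := Nat.land (Nat.shiftRight T (Nat.mul b e)) m

theorem tb_le (b m T e : ℕ) : tb b m T e ≤ m := Nat.and_le_right

/-- `t` is symmetric on `m × m` -/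
def symC (m : ℕ) (t : ℕ → ℕ → ℕ) : Bool :=
  nall m fun i => nall m fun j => Nat.beq (t i j) (t j i)

/-- the positive and the negative part of an entry of `t - O - (l - β)(l - β)ᵀ` -/
def ddP (r : ℕ) (t : ℕ → ℕ → ℕ) (l : ℕ → ℕ → ℕ) (β a b : ℕ) : ℕ :=
  Nat.add (t a b) (Nat.mul β (nsum r fun k => Nat.add (l a k) (l b k)))
def ddQ (r O : ℕ) (l : ℕ → ℕ → ℕ) (β a b : ℕ) : ℕ :=
  Nat.add O (Nat.add (nsum r fun k => Nat.mul (l a k) (l b k)) (Nat.mul r (Nat.mul β β)))
def dst (x y : ℕ) : ℕ := Nat.add (Nat.sub x y) (Nat.sub y x)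

/-- `t - O - (l - β)(l - β)ᵀ` is diagonally dominant -/
def ddC (r O : ℕ) (t : ℕ → ℕ → ℕ) (l : ℕ → ℕ → ℕ) (β : ℕ) : Bool :=
  nall r fun a => Nat.ble
    (Nat.add (nsum r fun b => dst (ddP r t l β a b) (ddQ r O l β a b))
      (Nat.mul 2 (ddQ r O l β a a))) (Nat.mul 2 (ddP r t l β a a))

/-- each row of `t - O` is `1/c` times the combination with the coefficients `bm - γ` of the rows
with the numbers `f a`, `a < r` -/
def rowC (m r O : ℕ) (t : ℕ → ℕ → ℕ) (f : ℕ → ℕ) (c : ℕ) (bm : ℕ → ℕ → ℕ) (γ : ℕ) : Bool :=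
  nall m fun i => nall m fun j => Nat.beq
    (Nat.add (Nat.mul c (t i j)) (Nat.add (Nat.mul γ (nsum r fun a => t (f a) j))
      (Nat.mul O (nsum r fun a => bm i a))))
    (Nat.add (Nat.mul c O) (Nat.add (nsum r fun a => Nat.mul (bm i a) (t (f a) j))
      (Nat.mul γ (Nat.mul r O))))

theorem dst_eq (x y : ℕ) : (dst x y : ℝ) = |(x : ℝ) - y| := by
  unfold dst
  simp only [Nat.add_eq, Nat.sub_eq]
  rcases le_total x y with h | h
  · rw [Nat.sub_eq_zero_of_le h, zero_add, Nat.cast_sub h, abs_sub_comm, abs_of_nonneg]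
    exact sub_nonneg.mpr (by exact_mod_cast h)
  · rw [Nat.sub_eq_zero_of_le h, add_zero, Nat.cast_sub h, abs_of_nonneg]
    exact sub_nonneg.mpr (by exact_mod_cast h)

/-- a symmetric diagonally dominant matrix is positive semidefinite -/
theorem dd_psd (r : ℕ) (E : ℕ → ℕ → ℝ) (hs : ∀ a < r, ∀ b < r, E a b = E b a)
    (hd : ∀ a < r, ∑ b ∈ range r, |E a b| ≤ 2 * E a a) (y : ℕ → ℝ) :
    0 ≤ ∑ a ∈ range r, ∑ b ∈ range r, y a * y b * E a b := by
  have h1 : ∀ a ∈ range r, ∀ b ∈ range r,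
      -(|E a b| * (y a ^ 2 + y b ^ 2) / 2) + (if a = b then (|E a b| + E a b) * y a ^ 2 else 0)
        ≤ y a * y b * E a b := by
    intro a _ b _
    by_cases hab : a = b
    · subst hab
      rw [if_pos rfl]
      nlinarith
    · rw [if_neg hab, add_zero]
      have h2 : |y a * y b| ≤ (y a ^ 2 + y b ^ 2) / 2 := by
        rw [abs_mul]
        nlinarith [sq_nonneg (|y a| - |y b|), sq_abs (y a), sq_abs (y b)]
      have h3 : |y a * y b * E a b| ≤ |E a b| * ((y a ^ 2 + y b ^ 2) / 2) := by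
        rw [abs_mul, mul_comm]
        exact mul_le_mul_of_nonneg_left h2 (abs_nonneg _)
      have h4 := neg_abs_le (y a * y b * E a b)
      linarith
  refine le_trans ?_ (sum_le_sum fun a ha => sum_le_sum fun b hb => h1 a ha b hb)
  have e1 : ∑ a ∈ range r, ∑ b ∈ range r,
      (-(|E a b| * (y a ^ 2 + y b ^ 2) / 2) + (if a = b then (|E a b| + E a b) * y a ^ 2 else 0))
      = ∑ a ∈ range r, y a ^ 2 * ((|E a a| + E a a) - ∑ b ∈ range r, |E a b|) := by
    have e2 : ∑ a ∈ range r, ∑ b ∈ range r, |E a b| * (y a ^ 2 + y b ^ 2) / 2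
        = ∑ a ∈ range r, ∑ b ∈ range r, |E a b| * y a ^ 2 := by
      have e3 : ∑ a ∈ range r, ∑ b ∈ range r, |E a b| * y b ^ 2
          = ∑ a ∈ range r, ∑ b ∈ range r, |E a b| * y a ^ 2 := by
        rw [sum_comm]
        refine sum_congr rfl fun a ha => sum_congr rfl fun b hb => ?_
        rw [hs b (mem_range.mp hb) a (mem_range.mp ha)]
      have e4 : ∑ a ∈ range r, ∑ b ∈ range r, |E a b| * (y a ^ 2 + y b ^ 2) / 2
          = (∑ a ∈ range r, ∑ b ∈ range r, |E a b| * y a ^ 2
            + ∑ a ∈ range r, ∑ b ∈ range r, |E a b| * y b ^ 2) / 2 := by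
        rw [← sum_add_distrib, sum_div]
        refine sum_congr rfl fun a _ => ?_
        rw [← sum_add_distrib, sum_div]
        refine sum_congr rfl fun b _ => ?_
        ring
      rw [e4, e3]
      ring
    have e5 : ∀ a ∈ range r, ∑ b ∈ range r,
        (if a = b then (|E a b| + E a b) * y a ^ 2 else 0) = (|E a a| + E a a) * y a ^ 2 := by
      intro a ha
      rw [sum_ite_eq, if_pos ha]
    calc ∑ a ∈ range r, ∑ b ∈ range r,
        (-(|E a b| * (y a ^ 2 + y b ^ 2) / 2) + (if a = b then (|E a b| + E a b) * y a ^ 2 else 0))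
        = -(∑ a ∈ range r, ∑ b ∈ range r, |E a b| * (y a ^ 2 + y b ^ 2) / 2)
          + ∑ a ∈ range r, ∑ b ∈ range r, (if a = b then (|E a b| + E a b) * y a ^ 2 else 0) := by
          simp only [sum_add_distrib, sum_neg_distrib]
      _ = -(∑ a ∈ range r, ∑ b ∈ range r, |E a b| * y a ^ 2)
          + ∑ a ∈ range r, (|E a a| + E a a) * y a ^ 2 := by
          rw [e2, sum_congr rfl e5]
      _ = _ := by
          rw [← sum_neg_distrib, ← sum_add_distrib]
          refine sum_congr rfl fun a _ => ?_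
          rw [← sum_mul]
          ring
  rw [e1]
  refine sum_nonneg fun a ha => mul_nonneg (sq_nonneg _) ?_
  have h5 := hd a (mem_range.mp ha)
  have h6 : 0 ≤ E a a := by
    have : 0 ≤ ∑ b ∈ range r, |E a b| := sum_nonneg fun _ _ => abs_nonneg _
    linarith
  rw [abs_of_nonneg h6]
  linarith

/-- positive semidefinite on the indices less than `m` -/
def PSD (m : ℕ) (M : ℕ → ℕ → ℝ) : Prop :=
  ∀ u : ℕ → ℝ, 0 ≤ ∑ i ∈ range m, ∑ j ∈ range m, u i * u j * M i j

theorem symC_eq {m : ℕ} {t : ℕ → ℕ → ℕ} (h : symC m t = true) {i j : ℕ} (hi : i < m) (hj : j < m) :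
    t i j = t j i := Nat.eq_of_beq_eq_true (nall_true (nall_true h i hi) j hj)

theorem ddC_psd {r O : ℕ} {t l : ℕ → ℕ → ℕ} {β : ℕ} (hs : ∀ a < r, ∀ b < r, t a b = t b a)
    (h : ddC r O t l β = true) : PSD r fun a b => (t a b : ℝ) - O := by
  intro u
  obtain ⟨E, hE⟩ : ∃ E : ℕ → ℕ → ℝ, E = fun a b =>
    (ddP r t l β a b : ℝ) - (ddQ r O l β a b : ℝ) := ⟨_, rfl⟩
  have hEe : ∀ a b, E a b = ((t a b : ℝ) - O) -
      ∑ k ∈ range r, ((l a k : ℝ) - β) * ((l b k : ℝ) - β) := by
    intro a b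
    rw [hE]
    unfold ddP ddQ
    simp only [Nat.add_eq, Nat.mul_eq, nsum_eq]
    push_cast
    have : ∑ k ∈ range r, ((l a k : ℝ) - β) * ((l b k : ℝ) - β)
        = ∑ k ∈ range r, (l a k : ℝ) * (l b k : ℝ) - β * ∑ k ∈ range r, ((l a k : ℝ) + (l b k : ℝ))
          + r * (β * β) := by
      rw [mul_sum, ← sum_sub_distrib]
      have hc : (r : ℝ) * (β * β) = ∑ _k ∈ range r, (β * β : ℝ) := by
        rw [sum_const, card_range, nsmul_eq_mul]
      rw [hc, ← sum_add_distrib]
      refine sum_congr rfl fun k _ => ?_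
      ring
    rw [this]
    ring
  have hsE : ∀ a < r, ∀ b < r, E a b = E b a := by
    intro a ha b hb
    rw [hEe, hEe, hs a ha b hb]
    congr 1
    exact sum_congr rfl fun k _ => mul_comm _ _
  have hd : ∀ a < r, ∑ b ∈ range r, |E a b| ≤ 2 * E a a := by
    intro a ha
    have h1 := Nat.le_of_ble_eq_true (nall_true h a ha)
    simp only [Nat.add_eq, Nat.mul_eq, nsum_eq] at h1
    have h2 : ((∑ b ∈ range r, dst (ddP r t l β a b) (ddQ r O l β a b)
      + 2 * ddQ r O l β a a : ℕ) : ℝ) ≤ ((2 * ddP r t l β a a : ℕ) : ℝ) := by exact_mod_cast h1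
    push_cast at h2
    simp only [dst_eq] at h2
    rw [hE]
    simp only
    linarith
  have h3 := dd_psd r E hsE hd u
  have h4 : ∑ i ∈ range r, ∑ j ∈ range r, u i * u j * ((t i j : ℝ) - O)
      = ∑ i ∈ range r, ∑ j ∈ range r, u i * u j * E i j
        + ∑ k ∈ range r, (∑ i ∈ range r, u i * ((l i k : ℝ) - β)) ^ 2 := by
    have h5 : ∑ k ∈ range r, (∑ i ∈ range r, u i * ((l i k : ℝ) - β)) ^ 2
        = ∑ i ∈ range r, ∑ j ∈ range r, u i * u j *
          ∑ k ∈ range r, ((l i k : ℝ) - β) * ((l j k : ℝ) - β) := by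
      have h6 : ∀ k ∈ range r, (∑ i ∈ range r, u i * ((l i k : ℝ) - β)) ^ 2
          = ∑ i ∈ range r, ∑ j ∈ range r,
            u i * ((l i k : ℝ) - β) * (u j * ((l j k : ℝ) - β)) := by
        intro k _
        rw [sq, sum_mul_sum]
      rw [sum_congr rfl h6, sum_comm]
      refine sum_congr rfl fun i _ => ?_
      rw [sum_comm]
      refine sum_congr rfl fun j _ => ?_
      rw [mul_sum]
      refine sum_congr rfl fun k _ => ?_
      ring
    rw [h5, ← sum_add_distrib]
    refine sum_congr rfl fun i _ => ?_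
    rw [← sum_add_distrib]
    refine sum_congr rfl fun j _ => ?_
    rw [hEe]
    ring
  simp only
  rw [h4]
  exact add_nonneg h3 (sum_nonneg fun k _ => sq_nonneg _)

theorem rowC_psd {m r O : ℕ} {t : ℕ → ℕ → ℕ} {f : ℕ → ℕ} {c : ℕ} {bm : ℕ → ℕ → ℕ} {γ : ℕ}
    (hc : 0 < c) (hf : ∀ a < r, f a < m) (hs : ∀ i < m, ∀ j < m, t i j = t j i)
    (h : rowC m r O t f c bm γ = true) (hp : PSD r fun a b => (t (f a) (f b) : ℝ) - O) :
    PSD m fun i j => (t i j : ℝ) - O := by
  intro u
  have hcr : (0 : ℝ) < c := by exact_mod_cast hc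
  have h1 : ∀ i < m, ∀ j < m, (c : ℝ) * ((t i j : ℝ) - O) =
      ∑ a ∈ range r, ((bm i a : ℝ) - γ) * ((t (f a) j : ℝ) - O) := by
    intro i hi j hj
    have h2 := Nat.eq_of_beq_eq_true (nall_true (nall_true h i hi) j hj)
    simp only [Nat.add_eq, Nat.mul_eq, nsum_eq] at h2
    have h3 : ((c * t i j + (γ * ∑ a ∈ range r, t (f a) j + O * ∑ a ∈ range r, bm i a) : ℕ) : ℝ)
        = ((c * O + (∑ a ∈ range r, bm i a * t (f a) j + γ * (r * O)) : ℕ) : ℝ) := by
      exact_mod_cast h2
    push_cast at h3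
    have h4 : ∑ a ∈ range r, ((bm i a : ℝ) - γ) * ((t (f a) j : ℝ) - O)
        = ∑ a ∈ range r, (bm i a : ℝ) * (t (f a) j : ℝ) - γ * ∑ a ∈ range r, (t (f a) j : ℝ)
          - O * ∑ a ∈ range r, (bm i a : ℝ) + γ * (r * O) := by
      have hr : (γ : ℝ) * (r * O) = ∑ _a ∈ range r, (γ * O : ℝ) := by
        rw [sum_const, card_range, nsmul_eq_mul]; ring
      rw [hr, mul_sum, mul_sum, ← sum_sub_distrib, ← sum_sub_distrib, ← sum_add_distrib]
      exact sum_congr rfl fun a _ => by ring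
    rw [h4]
    linarith
  obtain ⟨y, hy⟩ : ∃ y : ℕ → ℝ, y = fun a => ∑ i ∈ range m, u i * ((bm i a : ℝ) - γ) := ⟨_, rfl⟩
  have key : (c : ℝ) ^ 2 * ∑ i ∈ range m, ∑ j ∈ range m, u i * u j * ((t i j : ℝ) - O)
      = ∑ a ∈ range r, ∑ b ∈ range r, y a * y b * ((t (f a) (f b) : ℝ) - O) := by
    have s1 : (c : ℝ) * ∑ i ∈ range m, ∑ j ∈ range m, u i * u j * ((t i j : ℝ) - O)
        = ∑ a ∈ range r, y a * ∑ j ∈ range m, u j * ((t (f a) j : ℝ) - O) := by
      have : ∀ i ∈ range m, ∀ j ∈ range m, (c : ℝ) * (u i * u j * ((t i j : ℝ) - O))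
          = ∑ a ∈ range r, (u i * ((bm i a : ℝ) - γ)) * (u j * ((t (f a) j : ℝ) - O)) := by
        intro i hi j hj
        have h5 := h1 i (mem_range.mp hi) j (mem_range.mp hj)
        calc (c : ℝ) * (u i * u j * ((t i j : ℝ) - O)) = u i * u j * (c * ((t i j : ℝ) - O)) := by
              ring
          _ = _ := by
              rw [h5, mul_sum]
              exact sum_congr rfl fun a _ => by ring
      have e00 : (c : ℝ) * ∑ i ∈ range m, ∑ j ∈ range m, u i * u j * ((t i j : ℝ) - O)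
          = ∑ i ∈ range m, ∑ j ∈ range m, (c : ℝ) * (u i * u j * ((t i j : ℝ) - O)) := by
        rw [mul_sum]
        exact sum_congr rfl fun i _ => by rw [mul_sum]
      rw [e00, sum_congr rfl fun i hi => sum_congr rfl fun j hj => this i hi j hj]
      have e0 : ∀ a ∈ range r, y a * ∑ j ∈ range m, u j * ((t (f a) j : ℝ) - O)
          = ∑ i ∈ range m, ∑ j ∈ range m,
            u i * ((bm i a : ℝ) - γ) * (u j * ((t (f a) j : ℝ) - O)) := by
        intro a _
        rw [hy]
        simp only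
        rw [sum_mul_sum]
      rw [sum_congr rfl e0]
      have e1 : ∀ i ∈ range m, ∑ j ∈ range m, ∑ a ∈ range r,
          u i * ((bm i a : ℝ) - γ) * (u j * ((t (f a) j : ℝ) - O))
          = ∑ a ∈ range r, ∑ j ∈ range m,
            u i * ((bm i a : ℝ) - γ) * (u j * ((t (f a) j : ℝ) - O)) := fun i _ => sum_comm
      rw [sum_congr rfl e1, sum_comm]
    have s2 : ∀ a ∈ range r, (c : ℝ) * ∑ j ∈ range m, u j * ((t (f a) j : ℝ) - O)
        = ∑ b ∈ range r, y b * ((t (f a) (f b) : ℝ) - O) := by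
      intro a ha
      have hfa := hf a (mem_range.mp ha)
      have : ∀ j ∈ range m, (c : ℝ) * (u j * ((t (f a) j : ℝ) - O))
          = ∑ b ∈ range r, (u j * ((bm j b : ℝ) - γ)) * ((t (f a) (f b) : ℝ) - O) := by
        intro j hj
        have h5 := h1 j (mem_range.mp hj) (f a) hfa
        calc (c : ℝ) * (u j * ((t (f a) j : ℝ) - O)) = u j * (c * ((t j (f a) : ℝ) - O)) := by
              rw [hs (f a) hfa j (mem_range.mp hj)]; ring
          _ = _ := by
              rw [h5, mul_sum]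
              refine sum_congr rfl fun b hb => ?_
              rw [hs (f b) (hf b (mem_range.mp hb)) (f a) hfa]
              ring
      rw [mul_sum, sum_congr rfl this, sum_comm]
      rw [hy]
      simp only [sum_mul]
    calc (c : ℝ) ^ 2 * ∑ i ∈ range m, ∑ j ∈ range m, u i * u j * ((t i j : ℝ) - O)
        = c * (c * ∑ i ∈ range m, ∑ j ∈ range m, u i * u j * ((t i j : ℝ) - O)) := by ring
      _ = ∑ a ∈ range r, y a * (c * ∑ j ∈ range m, u j * ((t (f a) j : ℝ) - O)) := by
          rw [s1, mul_sum]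
          exact sum_congr rfl fun a _ => by ring
      _ = _ := by
          refine sum_congr rfl fun a ha => ?_
          rw [s2 a ha, mul_sum]
          exact sum_congr rfl fun b _ => by ring
  have h6 := hp y
  simp only at h6 ⊢
  rw [← key] at h6
  have h7 : (0 : ℝ) < (c : ℝ) ^ 2 := by positivity
  exact nonneg_of_mul_nonneg_right h6 h7

/-- lifting of a positive semidefinite form to a finite type -/
theorem psd_lift {V : Type} [Fintype V] {m : ℕ} {M : ℕ → ℕ → ℝ} (hM : PSD m M) (w : V → ℝ)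
    (α : V → ℕ) (hα : ∀ v, α v < m) : 0 ≤ ∑ d, ∑ e, w d * w e * M (α d) (α e) := by
  have h := hM fun i => ∑ v, if α v = i then w v else 0
  refine le_of_le_of_eq h ?_
  have e1 : ∀ d e : V, w d * w e * M (α d) (α e) = ∑ i ∈ range m, ∑ j ∈ range m,
      (if α d = i then w d else 0) * (if α e = j then w e else 0) * M i j := by
    intro d e
    rw [sum_eq_single (α d), sum_eq_single (α e), if_pos rfl, if_pos rfl]
    · intro j _ hj
      rw [if_neg (Ne.symm hj)]
      ring
    · intro hn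
      exact absurd (mem_range.mpr (hα e)) hn
    · intro i _ hi
      refine sum_eq_zero fun j _ => ?_
      rw [if_neg (Ne.symm hi)]
      ring
    · intro hn
      exact absurd (mem_range.mpr (hα d)) hn
  simp only [e1]
  have e2 : ∀ i ∈ range m, ∀ j ∈ range m, (∑ v, if α v = i then w v else 0) *
      (∑ v, if α v = j then w v else 0) * M i j = ∑ d, ∑ e,
      (if α d = i then w d else 0) * (if α e = j then w e else 0) * M i j := by
    intro i _ j _
    rw [sum_mul_sum, sum_mul]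
    refine sum_congr rfl fun d _ => ?_
    rw [sum_mul]
  rw [sum_congr rfl fun i hi => sum_congr rfl fun j hj => e2 i hi j hj]
  have e3 : ∑ i ∈ range m, ∑ j ∈ range m, ∑ d, ∑ e,
      (if α d = i then w d else 0) * (if α e = j then w e else 0) * M i j
      = ∑ i ∈ range m, ∑ d, ∑ j ∈ range m, ∑ e,
      (if α d = i then w d else 0) * (if α e = j then w e else 0) * M i j :=
    sum_congr rfl fun i _ => sum_comm
  rw [e3, sum_comm]
  refine sum_congr rfl fun d _ => ?_
  have e4 : ∑ i ∈ range m, ∑ j ∈ range m, ∑ e,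
      (if α d = i then w d else 0) * (if α e = j then w e else 0) * M i j
      = ∑ i ∈ range m, ∑ e, ∑ j ∈ range m,
      (if α d = i then w d else 0) * (if α e = j then w e else 0) * M i j :=
    sum_congr rfl fun i _ => sum_comm
  rw [e4, sum_comm]

end Pool.Agent.Helper13.C3
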