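import Pool.Agent.Helper13.C3.List

/-! All 1024 rules: reduction to the representatives by permutations of the colours. -/

set_option autoImplicit false
set_option maxRecDepth 100000
open Finset
open scoped Classical

namespace Pool.Agent.Helper13.C3

def sg (k x : ℕ) : ℕ := tb 4 15 S6 (Nat.add (Nat.mul 3 k) x)
def rpM (M : ℕ) : ℕ := tb 12 4095 RP M
def sgM (M : ℕ) : ℕ := tb 4 15 SG M

/-- `M'` is the image of `M` under the permutation `k` of the colours -/
def prmC (M M' k : ℕ) : Bool := nall 3 fun x => nall 3 fun y => nall 3 fun z =>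
  Nat.beq (eN M' (tyN (cd (sg k x) (sg k y) (sg k z)))) (eN M (tyN (cd x y z)))

def memB (r : ℕ) (L : List ℕ) : Bool := List.rec false (fun a _ ih => or (Nat.beq r a) ih) L

theorem memB_mem {r : ℕ} {L : List ℕ} (h : memB r L = true) : r ∈ L := by
  induction L with
  | nil => exact absurd h Bool.false_ne_true
  | cons a L ih =>
    have h' : or (Nat.beq r a) (memB r L) = true := h
    rw [Bool.or_eq_true] at h'
    rcases h' with h1 | h1
    · rw [Nat.eq_of_beq_eq_true h1]; exact List.mem_cons_self
    · exact List.mem_cons_of_mem _ (ih h1)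

/-- the rules which contain the rainbow triples, no monochromatic triple and all types `aab` for
one of the two cyclic orders of the colours -/
def excB (M : ℕ) : Bool :=
  and (and (Nat.beq (Nat.add (eN M 0) (Nat.add (eN M 6) (eN M 9))) 0) (Nat.beq (eN M 4) 1))
    (or (Nat.beq (Nat.add (eN M 1) (Nat.add (eN M 7) (eN M 5))) 3)
      (Nat.beq (Nat.add (eN M 3) (Nat.add (eN M 8) (eN M 2))) 3))

def tabC : Bool := nall 1024 fun M => and (Nat.ble (Nat.succ (rpM M)) 1024)
  (and (Nat.ble (Nat.succ (sgM M)) 6) (and (prmC M (rpM M) (sgM M))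
    (cond (excB M) (memB (rpM M) [178, 182, 190, 446]) (memB (rpM M) reps))))

theorem tab : tabC = true := by decide +kernel

theorem sg_lt : (nall 6 fun k => nall 3 fun x => Nat.ble (Nat.succ (sg k x)) 3) = true := by
  decide +kernel

theorem bt_specB : (nall 1024 fun M => nall 27 fun c => Nat.beq (eN (bt M) c) (eN M (tyN c)))
    = true := by
  decide +kernel

theorem bt_spec (M : ℕ) (hM : M < 1024) (c : ℕ) (hc : c < 27) : eN (bt M) c = eN M (tyN c) :=
  Nat.eq_of_beq_eq_true (nall_true (nall_true bt_specB M hM) c hc)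

theorem good_perm {M M' k p q : ℕ} (hM : M < 1024) (hM' : M' < 1024) (hk : k < 6)
    (h : prmC M M' k = true) (hG : Good (bt M') p q) : Good (bt M) p q := by
  intro V _ hn rel hl hs
  have hσ : ∀ x < 3, sg k x < 3 := fun x hx =>
    Nat.le_of_ble_eq_true (nall_true (nall_true sg_lt k hk) x hx)
  have hc : ∀ x y z : ℕ, x < 3 → y < 3 → z < 3 →
      eN (bt M') (cd (sg k x) (sg k y) (sg k z)) = eN (bt M) (cd x y z) := by
    intro x y z hx hy hz
    rw [bt_spec M' hM' _ (cd_lt (hσ x hx) (hσ y hy) (hσ z hz)), bt_spec M hM _ (cd_lt hx hy hz)]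
    exact Nat.eq_of_beq_eq_true (nall_true (nall_true (nall_true h x hx) y hy) z hz)
  have key := hG V hn (fun x y => sg k (rel x y)) (fun x y => hσ _ (hl x y))
    (fun x y => by rw [hs x y])
  have e1 : ∀ a b c : V, eN (bt M') (c3 (fun x y => sg k (rel x y)) a b c)
      = eN (bt M) (c3 rel a b c) := fun a b c => hc _ _ _ (hl _ _) (hl _ _) (hl _ _)
  have e2 : ∀ a b c d : V, fourN (bt M') (sg k (rel a b)) (sg k (rel a c)) (sg k (rel a d))
      (sg k (rel b c)) (sg k (rel b d)) (sg k (rel c d))
      = fourN (bt M) (rel a b) (rel a c) (rel a d) (rel b c) (rel b d) (rel c d) := by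
    intro a b c d
    unfold fourN
    rw [hc _ _ _ (hl _ _) (hl _ _) (hl _ _), hc _ _ _ (hl _ _) (hl _ _) (hl _ _),
      hc _ _ _ (hl _ _) (hl _ _) (hl _ _), hc _ _ _ (hl _ _) (hl _ _) (hl _ _)]
  simp only [e1, e2] at key
  exact key

theorem good_mono {B : ℕ} (h : Good B 11 20) : Good B 5 9 := by
  intro V _ hn rel hl hs
  have := h V hn rel hl hs
  push_cast at this ⊢
  linarith

/-- the bound `5/9` for all rules, and `11/20` for those that are not exceptional -/
theorem all_rules (M : ℕ) (hM : M < 1024) :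
    Good (bt M) 5 9 ∧ (excB M = false → Good (bt M) 11 20) := by
  have h := nall_true tab M hM
  rw [Bool.and_eq_true, Bool.and_eq_true, Bool.and_eq_true] at h
  obtain ⟨h1, h2, h3, h4⟩ := h
  have h1' : rpM M < 1024 := Nat.le_of_ble_eq_true h1
  have h2' : sgM M < 6 := Nat.le_of_ble_eq_true h2
  cases he : excB M
  · rw [he, cond_false] at h4
    have hg := good_perm hM h1' h2' h3 (reps_good _ (memB_mem h4))
    exact ⟨good_mono hg, fun _ => hg⟩
  · rw [he, cond_true] at h4
    have hg := good_perm hM h1' h2' h3 (gS _ (memB_mem h4))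
    exact ⟨hg, fun h => absurd h (by decide)⟩

end Pool.Agent.Helper13.C3
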