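import Pool.Agent.Helper13.C3.Psd

/-! Averaging over four and five vertices of a finite set whose pairs have colours `0`, `1`, `2`. -/

set_option autoImplicit false
open Finset
open scoped Classical

namespace Pool.Agent.Helper13.C3

/-- code of three colours -/
def cd (x y z : ℕ) : ℕ := Nat.add x (Nat.add (Nat.mul 3 y) (Nat.mul 9 z))
/-- code of two colours -/
def ce (x y : ℕ) : ℕ := Nat.add x (Nat.mul 3 y)

theorem cd_lt {x y z : ℕ} (hx : x < 3) (hy : y < 3) (hz : z < 3) : cd x y z < 27 := by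
  show x + (3 * y + 9 * z) < 27
  omega

theorem ce_lt {x y : ℕ} (hx : x < 3) (hy : y < 3) : ce x y < 9 := by
  show x + 3 * y < 9
  omega

/-! ### sums over tuples -/

theorem psum5 {V : Type} [Fintype V] (w : V → ℝ) (F : V → V → V → V → V → ℝ) (g : Fin 5 → Fin 5)
    (hg : Function.Bijective g) :
    ∑ x : Fin 5 → V, (∏ i, w (x i)) * F (x (g 0)) (x (g 1)) (x (g 2)) (x (g 3)) (x (g 4))
      = ∑ x : Fin 5 → V, (∏ i, w (x i)) * F (x 0) (x 1) (x 2) (x 3) (x 4) := by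
  have h := Equiv.sum_comp (Equiv.arrowCongr (Equiv.ofBijective g hg).symm (Equiv.refl V))
    (fun x => (∏ i, w (x i)) * F (x 0) (x 1) (x 2) (x 3) (x 4))
  rw [← h]
  refine sum_congr rfl fun x _ => ?_
  have e : (∏ i, w (x i)) = ∏ i, w ((Equiv.arrowCongr (Equiv.ofBijective g hg).symm
      (Equiv.refl V)) x i) := by
    have := Equiv.prod_comp (Equiv.ofBijective g hg) (fun i => w (x i))
    rw [← this]
    rfl
  rw [e]
  rfl

theorem psum4 {V : Type} [Fintype V] (w : V → ℝ) (F : V → V → V → V → ℝ) (g : Fin 4 → Fin 4)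
    (hg : Function.Bijective g) :
    ∑ x : Fin 4 → V, (∏ i, w (x i)) * F (x (g 0)) (x (g 1)) (x (g 2)) (x (g 3))
      = ∑ x : Fin 4 → V, (∏ i, w (x i)) * F (x 0) (x 1) (x 2) (x 3) := by
  have h := Equiv.sum_comp (Equiv.arrowCongr (Equiv.ofBijective g hg).symm (Equiv.refl V))
    (fun x => (∏ i, w (x i)) * F (x 0) (x 1) (x 2) (x 3))
  rw [← h]
  refine sum_congr rfl fun x _ => ?_
  have e : (∏ i, w (x i)) = ∏ i, w ((Equiv.arrowCongr (Equiv.ofBijective g hg).symm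
      (Equiv.refl V)) x i) := by
    have := Equiv.prod_comp (Equiv.ofBijective g hg) (fun i => w (x i))
    rw [← this]
    rfl
  rw [e]
  rfl

def eq5 (V : Type) : (Fin 5 → V) ≃ V × V × V × V × V where
  toFun x := (x 0, x 1, x 2, x 3, x 4)
  invFun p := ![p.1, p.2.1, p.2.2.1, p.2.2.2.1, p.2.2.2.2]
  left_inv x := by funext i; fin_cases i <;> rfl
  right_inv p := rfl

def eq4 (V : Type) : (Fin 4 → V) ≃ V × V × V × V where
  toFun x := (x 0, x 1, x 2, x 3)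
  invFun p := ![p.1, p.2.1, p.2.2.1, p.2.2.2]
  left_inv x := by funext i; fin_cases i <;> rfl
  right_inv p := rfl

theorem conv5 {V : Type} [Fintype V] (w : V → ℝ) (F : V → V → V → V → V → ℝ) :
    ∑ x : Fin 5 → V, (∏ i, w (x i)) * F (x 0) (x 1) (x 2) (x 3) (x 4)
      = ∑ a, ∑ b, ∑ c, ∑ d, ∑ e, w a * w b * w c * w d * w e * F a b c d e := by
  rw [← Equiv.sum_comp (eq5 V).symm]
  simp only [Fintype.sum_prod_type]
  refine sum_congr rfl fun a _ => sum_congr rfl fun b _ => sum_congr rfl fun c _ =>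
    sum_congr rfl fun d _ => sum_congr rfl fun e _ => ?_
  have : (∏ i, w ((eq5 V).symm (a, b, c, d, e) i)) = w a * w b * w c * w d * w e := by
    rw [Fin.prod_univ_five]
    rfl
  rw [this]
  rfl

theorem conv4 {V : Type} [Fintype V] (w : V → ℝ) (F : V → V → V → V → ℝ) :
    ∑ x : Fin 4 → V, (∏ i, w (x i)) * F (x 0) (x 1) (x 2) (x 3)
      = ∑ a, ∑ b, ∑ c, ∑ d, w a * w b * w c * w d * F a b c d := by
  rw [← Equiv.sum_comp (eq4 V).symm]
  simp only [Fintype.sum_prod_type]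
  refine sum_congr rfl fun a _ => sum_congr rfl fun b _ => sum_congr rfl fun c _ =>
    sum_congr rfl fun d _ => ?_
  have : (∏ i, w ((eq4 V).symm (a, b, c, d) i)) = w a * w b * w c * w d := by
    rw [Fin.prod_univ_four]
    rfl
  rw [this]
  rfl

theorem sum1 {V : Type} [Fintype V] (w : V → ℝ) (h1 : ∑ v, w v = 1) (z : ℝ) :
    ∑ v, w v * z = z := by
  rw [← sum_mul, h1, one_mul]

section
variable {V : Type} (rel : V → V → ℕ)

/-- code of a triple -/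
def c3 (a b c : V) : ℕ := cd (rel a b) (rel a c) (rel b c)
/-- code of the attachment of `d` to the triple `a b c` -/
def c4 (a b c d : V) : ℕ := cd (rel a d) (rel b d) (rel c d)
/-- code of the attachment of `c` to the pair `a b` -/
def c2 (a b c : V) : ℕ := ce (rel a c) (rel b c)

def F3 (q3 : ℕ → ℕ → ℕ → ℕ) (a b c d e : V) : ℕ :=
  q3 (cd (rel a b) (rel a c) (rel b c)) (cd (rel a d) (rel b d) (rel c d))
    (cd (rel a e) (rel b e) (rel c e))
def F1 (q1 : ℕ → ℕ → ℕ) (a b c d e : V) : ℕ :=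
  q1 (cd (rel a b) (rel a c) (rel b c)) (cd (rel a d) (rel a e) (rel d e))
def F2 (q2 : ℕ → ℕ → ℕ → ℕ) (a b c d : V) : ℕ :=
  q2 (rel a b) (ce (rel a c) (rel b c)) (ce (rel a d) (rel b d))
def F0 (q0 : ℕ → ℕ → ℕ) (a b c d : V) : ℕ := q0 (rel a b) (rel c d)
def FE (e : ℕ → ℕ) (a b c : V) : ℕ := e (cd (rel a b) (rel a c) (rel b c))

/-- the total over the 10 triples and the 15 splittings of five vertices -/
def Leaf5 (q3 : ℕ → ℕ → ℕ → ℕ) (q1 : ℕ → ℕ → ℕ) (x : Fin 5 → V) : ℕ :=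
  (F3 rel q3 (x 0) (x 1) (x 2) (x 3) (x 4) +
      (F3 rel q3 (x 0) (x 1) (x 3) (x 2) (x 4) +
      (F3 rel q3 (x 0) (x 1) (x 4) (x 2) (x 3) +
      (F3 rel q3 (x 0) (x 2) (x 3) (x 1) (x 4) +
      (F3 rel q3 (x 0) (x 2) (x 4) (x 1) (x 3) +
      (F3 rel q3 (x 0) (x 3) (x 4) (x 1) (x 2) +
      (F3 rel q3 (x 1) (x 2) (x 3) (x 0) (x 4) +
      (F3 rel q3 (x 1) (x 2) (x 4) (x 0) (x 3) +
      (F3 rel q3 (x 1) (x 3) (x 4) (x 0) (x 2) +
      F3 rel q3 (x 2) (x 3) (x 4) (x 0) (x 1))))))))))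
    + (F1 rel q1 (x 0) (x 1) (x 2) (x 3) (x 4) +
      (F1 rel q1 (x 0) (x 1) (x 3) (x 2) (x 4) +
      (F1 rel q1 (x 0) (x 1) (x 4) (x 2) (x 3) +
      (F1 rel q1 (x 1) (x 0) (x 2) (x 3) (x 4) +
      (F1 rel q1 (x 1) (x 0) (x 3) (x 2) (x 4) +
      (F1 rel q1 (x 1) (x 0) (x 4) (x 2) (x 3) +
      (F1 rel q1 (x 2) (x 0) (x 1) (x 3) (x 4) +
      (F1 rel q1 (x 2) (x 0) (x 3) (x 1) (x 4) +
      (F1 rel q1 (x 2) (x 0) (x 4) (x 1) (x 3) +
      (F1 rel q1 (x 3) (x 0) (x 1) (x 2) (x 4) +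
      (F1 rel q1 (x 3) (x 0) (x 2) (x 1) (x 4) +
      (F1 rel q1 (x 3) (x 0) (x 4) (x 1) (x 2) +
      (F1 rel q1 (x 4) (x 0) (x 1) (x 2) (x 3) +
      (F1 rel q1 (x 4) (x 0) (x 2) (x 1) (x 3) +
      F1 rel q1 (x 4) (x 0) (x 3) (x 1) (x 2)))))))))))))))

/-- the total over the 6 pairs, 3 splittings and 4 triples of four vertices -/
def Leaf4 (q2 : ℕ → ℕ → ℕ → ℕ) (q0 : ℕ → ℕ → ℕ) (e : ℕ → ℕ) (x : Fin 4 → V) : ℕ :=
  (F2 rel q2 (x 0) (x 1) (x 2) (x 3) + (F2 rel q2 (x 0) (x 2) (x 1) (x 3) +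
    (F2 rel q2 (x 0) (x 3) (x 1) (x 2) + (F2 rel q2 (x 1) (x 2) (x 0) (x 3) +
    (F2 rel q2 (x 1) (x 3) (x 0) (x 2) + F2 rel q2 (x 2) (x 3) (x 0) (x 1))))))
  + ((F0 rel q0 (x 0) (x 1) (x 2) (x 3) + (F0 rel q0 (x 0) (x 2) (x 1) (x 3) +
    F0 rel q0 (x 0) (x 3) (x 1) (x 2)))
  + (FE rel e (x 0) (x 1) (x 2) + (FE rel e (x 0) (x 1) (x 3) +
    (FE rel e (x 0) (x 2) (x 3) + FE rel e (x 1) (x 2) (x 3)))))
end

theorem lower3 {V : Type} [Fintype V] (rel : V → V → ℕ) (hl : ∀ x y, rel x y < 3)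
    (w : V → ℝ) (hw : ∀ v, 0 ≤ w v) (h1 : ∑ v, w v = 1)
    (q3 : ℕ → ℕ → ℕ → ℕ) (O : ℝ) (t : ℕ → ℝ)
    (hq : ∀ c < 27, PSD 27 fun i j => (q3 c i j : ℝ) - (O + t c)) :
    O + (∑ a, ∑ b, ∑ c, w a * w b * w c * t (c3 rel a b c))
      ≤ ∑ x : Fin 5 → V, (∏ i, w (x i)) * (F3 rel q3 (x 0) (x 1) (x 2) (x 3) (x 4) : ℝ) := by
  rw [conv5 w (fun a b c d e => (F3 rel q3 a b c d e : ℝ))]
  have e1 : O + (∑ a, ∑ b, ∑ c, w a * w b * w c * t (c3 rel a b c))
      = ∑ a, ∑ b, ∑ c, w a * (w b * (w c * (O + t (c3 rel a b c)))) := by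
    have hO : O = ∑ a, ∑ b, ∑ c, w a * (w b * (w c * O)) := by
      simp only [← mul_sum, sum1 w h1]
    have ht : (∑ a, ∑ b, ∑ c, w a * w b * w c * t (c3 rel a b c))
        = ∑ a, ∑ b, ∑ c, w a * (w b * (w c * t (c3 rel a b c))) :=
      sum_congr rfl fun a _ => sum_congr rfl fun b _ => sum_congr rfl fun c _ => by ring
    rw [ht]
    nth_rewrite 1 [hO]
    simp only [← sum_add_distrib]
    exact sum_congr rfl fun a _ => sum_congr rfl fun b _ => sum_congr rfl fun c _ => by ring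
  rw [e1]
  refine sum_le_sum fun a _ => sum_le_sum fun b _ => sum_le_sum fun c _ => ?_
  have p := psd_lift (hq (c3 rel a b c) (cd_lt (hl _ _) (hl _ _) (hl _ _))) w
    (fun d => c4 rel a b c d) (fun d => cd_lt (hl _ _) (hl _ _) (hl _ _))
  have e3 : ∑ d, ∑ e, w a * w b * w c * w d * w e * (F3 rel q3 a b c d e : ℝ)
      = w a * (w b * (w c * ((∑ d, ∑ e, w d * w e *
          ((q3 (c3 rel a b c) (c4 rel a b c d) (c4 rel a b c e) : ℝ) - (O + t (c3 rel a b c))))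
        + (O + t (c3 rel a b c))))) := by
    have s1 : O + t (c3 rel a b c) = ∑ d, ∑ e, w d * w e * (O + t (c3 rel a b c)) := by
      simp only [mul_assoc, ← mul_sum, sum1 w h1]
    nth_rewrite 2 [s1]
    simp only [← sum_add_distrib]
    simp only [mul_sum (s := (Finset.univ : Finset V))]
    refine sum_congr rfl fun d _ => sum_congr rfl fun e _ => ?_
    unfold F3 c3 c4
    ring
  rw [e3]
  refine mul_le_mul_of_nonneg_left (mul_le_mul_of_nonneg_left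
    (mul_le_mul_of_nonneg_left ?_ (hw c)) (hw b)) (hw a)
  linarith

theorem lower1 {V : Type} [Fintype V] (rel : V → V → ℕ) (hl : ∀ x y, rel x y < 3)
    (w : V → ℝ) (hw : ∀ v, 0 ≤ w v) (h1 : ∑ v, w v = 1)
    (q1 : ℕ → ℕ → ℕ) (O : ℝ) (hq : PSD 27 fun i j => (q1 i j : ℝ) - O) :
    O ≤ ∑ x : Fin 5 → V, (∏ i, w (x i)) * (F1 rel q1 (x 0) (x 1) (x 2) (x 3) (x 4) : ℝ) := by
  rw [conv5 w (fun a b c d e => (F1 rel q1 a b c d e : ℝ))]
  have hO : O = ∑ a, w a * O := (sum1 w h1 _).symm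
  rw [hO]
  refine sum_le_sum fun a _ => ?_
  have p := psd_lift (V := V × V) hq (fun q => w q.1 * w q.2)
    (fun q => c3 rel a q.1 q.2) (fun q => cd_lt (hl _ _) (hl _ _) (hl _ _))
  simp only [Fintype.sum_prod_type] at p
  have e3 : ∑ b, ∑ c, ∑ d, ∑ e, w a * w b * w c * w d * w e * (F1 rel q1 a b c d e : ℝ)
      = w a * ((∑ b, ∑ c, ∑ d, ∑ e, w b * w c * (w d * w e) *
          ((q1 (c3 rel a b c) (c3 rel a d e) : ℝ) - O)) + O) := by
    have s1 : O = ∑ b, ∑ c, ∑ d, ∑ e, w b * (w c * (w d * (w e * O))) := by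
      simp only [← mul_sum, sum1 w h1]
    nth_rewrite 2 [s1]
    simp only [← sum_add_distrib]
    simp only [mul_sum (s := (Finset.univ : Finset V))]
    refine sum_congr rfl fun b _ => sum_congr rfl fun c _ => sum_congr rfl fun d _ =>
      sum_congr rfl fun e _ => ?_
    unfold F1 c3
    ring
  rw [e3]
  refine mul_le_mul_of_nonneg_left ?_ (hw a)
  linarith

theorem lower2 {V : Type} [Fintype V] (rel : V → V → ℕ) (hl : ∀ x y, rel x y < 3)
    (w : V → ℝ) (hw : ∀ v, 0 ≤ w v) (h1 : ∑ v, w v = 1)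
    (q2 : ℕ → ℕ → ℕ → ℕ) (O : ℝ) (hq : ∀ k < 3, PSD 9 fun i j => (q2 k i j : ℝ) - O) :
    O ≤ ∑ x : Fin 4 → V, (∏ i, w (x i)) * (F2 rel q2 (x 0) (x 1) (x 2) (x 3) : ℝ) := by
  rw [conv4 w (fun a b c d => (F2 rel q2 a b c d : ℝ))]
  have hO : O = ∑ a, ∑ b, w a * (w b * O) := by
    simp only [← mul_sum, sum1 w h1]
  rw [hO]
  refine sum_le_sum fun a _ => sum_le_sum fun b _ => ?_
  have p := psd_lift (hq (rel a b) (hl _ _)) w (fun c => c2 rel a b c)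
    (fun c => ce_lt (hl _ _) (hl _ _))
  have e3 : ∑ c, ∑ d, w a * w b * w c * w d * (F2 rel q2 a b c d : ℝ)
      = w a * (w b * ((∑ c, ∑ d, w c * w d *
          ((q2 (rel a b) (c2 rel a b c) (c2 rel a b d) : ℝ) - O)) + O)) := by
    have s1 : O = ∑ c, ∑ d, w c * (w d * O) := by
      simp only [← mul_sum, sum1 w h1]
    nth_rewrite 2 [s1]
    simp only [← sum_add_distrib]
    simp only [mul_sum (s := (Finset.univ : Finset V))]
    refine sum_congr rfl fun c _ => sum_congr rfl fun d _ => ?_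
    unfold F2 c2
    ring
  rw [e3]
  refine mul_le_mul_of_nonneg_left (mul_le_mul_of_nonneg_left ?_ (hw b)) (hw a)
  linarith

theorem lower0 {V : Type} [Fintype V] (rel : V → V → ℕ) (hl : ∀ x y, rel x y < 3)
    (w : V → ℝ) (h1 : ∑ v, w v = 1)
    (q0 : ℕ → ℕ → ℕ) (O : ℝ) (hq : PSD 3 fun i j => (q0 i j : ℝ) - O) :
    O ≤ ∑ x : Fin 4 → V, (∏ i, w (x i)) * (F0 rel q0 (x 0) (x 1) (x 2) (x 3) : ℝ) := by
  rw [conv4 w (fun a b c d => (F0 rel q0 a b c d : ℝ))]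
  have p := psd_lift (V := V × V) hq (fun q => w q.1 * w q.2)
    (fun q => rel q.1 q.2) (fun q => hl _ _)
  simp only [Fintype.sum_prod_type] at p
  have e3 : ∑ a, ∑ b, ∑ c, ∑ d, w a * w b * w c * w d * (F0 rel q0 a b c d : ℝ)
      = (∑ a, ∑ b, ∑ c, ∑ d, w a * w b * (w c * w d) *
          ((q0 (rel a b) (rel c d) : ℝ) - O)) + O := by
    have s1 : O = ∑ a, ∑ b, ∑ c, ∑ d, w a * (w b * (w c * (w d * O))) := by
      simp only [← mul_sum, sum1 w h1]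
    nth_rewrite 2 [s1]
    simp only [← sum_add_distrib]
    refine sum_congr rfl fun a _ => sum_congr rfl fun b _ => sum_congr rfl fun c _ =>
      sum_congr rfl fun d _ => ?_
    unfold F0
    ring
  rw [e3]
  linarith

theorem tripE {V : Type} [Fintype V] (rel : V → V → ℕ)
    (w : V → ℝ) (h1 : ∑ v, w v = 1) (e : ℕ → ℕ) :
    ∑ x : Fin 4 → V, (∏ i, w (x i)) * (FE rel e (x 0) (x 1) (x 2) : ℝ)
      = ∑ a, ∑ b, ∑ c, w a * w b * w c * (e (c3 rel a b c) : ℝ) := by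
  rw [conv4 w (fun a b c _ => (FE rel e a b c : ℝ))]
  refine sum_congr rfl fun a _ => sum_congr rfl fun b _ => sum_congr rfl fun c _ => ?_
  have : ∀ d, w a * w b * w c * w d * (FE rel e a b c : ℝ)
      = w d * (w a * w b * w c * (FE rel e a b c : ℝ)) := fun d => by ring
  simp only [this, sum1 w h1]
  rfl

end Pool.Agent.Helper13.C3
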